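import Pool.Agent.H42.F4.Ky

/-!
# Few bits given the box

The label `G` of the core is a few bits given the box and the slopes `al`. The slopes are almost
independent of the point given the box. Then two copies of `G` given the point are the same up to a
constant: `G` is a few bits given the box.
-/

set_option autoImplicit false

namespace Pool.F4L

open Finset Real MvPolynomial
open Pool.Agent.H49.Ent Pool.Agent.H32.Dense Pool.STK Pool.BFL Pool.MIC Pool.MIC30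
open Pool.TIE (dg CH_box SubL dg_shift')

variable {Ω : Type} [Fintype Ω]

/-- The value of the label at the position. -/
noncomputable def pe {Ω : Type} {m : ℕ} (X : ℕ) (V : Ω → Fin m → ℤ) (G : Ω → Pl m) (ω : Ω) : ℝ :=
  eval (fun i => ((V ω i : ℤ) : ℝ) / 2 ^ X) (G ω)

/-- The data of a label: `V` is full given the height over `G`, `G`, the box and the slopes. -/
structure LabD {Ω β α : Type} [Fintype Ω] {m : ℕ} (q : Ω → ℝ) (b : Ω → β) (al : Ω → α)
    (V : Ω → Fin m → ℤ) (nu : Ω → ℝ) (G : Ω → Pl m) (X h K : ℕ) (θ : ℝ) : Prop where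
  isLaw : IsLaw q
  h_le : h ≤ X
  V_lt : ∀ ω i, 0 ≤ V ω i ∧ V ω i < 2 ^ X
  deg : ∀ ω, 0 < q ω → (G ω).totalDegree ≤ K
  cf : ∀ ω, 0 < q ω → ∀ a, |coeff a (G ω)| ≤ (2 : ℝ) ^ θ
  full : m * (X * Real.log 2) - θ ≤
    CH q V (fun ω => (dg h (nu ω - pe X V G ω), (G ω, (b ω, al ω))))

variable {β α : Type} {m : ℕ} {q : Ω → ℝ} {b : Ω → β} {al : Ω → α} {V : Ω → Fin m → ℤ}
  {nu : Ω → ℝ} {G : Ω → Pl m} {X h K : ℕ} {θ : ℝ}

/-- The height over the label is almost independent of the position. -/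
theorem LabD.ind (D : LabD q b al V nu G X h K θ) :
    CH q (fun ω => dg h (nu ω - pe X V G ω)) (fun ω => (b ω, G ω)) ≤
      CH q (fun ω => dg h (nu ω - pe X V G ω)) (fun ω => (V ω, (b ω, G ω))) + θ := by
  have h0 := D.isLaw.nonneg
  have h1 := mi_sw h0 (fun ω => dg h (nu ω - pe X V G ω)) V (fun ω => (b ω, G ω))
  have h2 := CH_box D.isLaw V D.V_lt (fun ω => (b ω, G ω))
  have h3 : CH q V (fun ω => (dg h (nu ω - pe X V G ω), (G ω, (b ω, al ω)))) ≤
      CH q V (fun ω => (dg h (nu ω - pe X V G ω), (b ω, G ω))) :=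
    CH_mono_cond h0 fun _ _ _ _ e => by
      have e1 := congrArg (fun x => x.1) e
      have e2 := congrArg (fun x => x.2.1) e
      have e3 := congrArg (fun x => x.2.2.1) e
      exact Prod.ext e1 (Prod.ext e3 e2)
  have h4 := D.full
  linarith

/-- Two copies of a variable. -/
theorem isLaw_gl (hq : IsLaw q) {T : Type} (g : Ω → T) : IsLaw (glue q q g g) :=
  ⟨glue_nonneg hq.nonneg hq.nonneg, (sum_glue hq.nonneg fun _ => rfl).trans hq.sum_one⟩

theorem lg_sub_C {m : ℕ} (H : ℕ) (P : Pl m) (c : ℝ) : Lg H (P - MvPolynomial.C c) ↔ Lg H P := by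
  unfold Lg
  refine exists_congr fun k => and_congr_right fun hk => ?_
  rw [coeff_sub, coeff_C, if_neg (Ne.symm hk), sub_zero]

theorem dg_near {h : ℕ} {x y : ℝ} (e : dg h x = dg h y) : |x - y| ≤ 1 / 2 ^ h := by
  unfold Pool.TIE.dg at e
  have p : (0 : ℝ) < 2 ^ h := by positivity
  have a1 := Int.floor_le ((2 : ℝ) ^ h * x)
  have a2 := Int.lt_floor_add_one ((2 : ℝ) ^ h * x)
  have a3 := Int.floor_le ((2 : ℝ) ^ h * y)
  have a4 := Int.lt_floor_add_one ((2 : ℝ) ^ h * y)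
  rw [← e] at a3 a4
  have e5 : |x - y| * 2 ^ h = |(x - y) * 2 ^ h| := by rw [abs_mul, abs_of_pos p]
  rw [le_div_iff₀ p, e5, abs_le]
  constructor <;> linarith

theorem dg_val (h : ℕ) (x : ℝ) : |x - (dg h x : ℝ) / 2 ^ h| ≤ 1 / 2 ^ h := by
  unfold Pool.TIE.dg
  have p : (0 : ℝ) < 2 ^ h := by positivity
  have a1 := Int.floor_le ((2 : ℝ) ^ h * x)
  have a2 := Int.lt_floor_add_one ((2 : ℝ) ^ h * x)
  have e5 : |x - ((⌊(2 : ℝ) ^ h * x⌋ : ℤ) : ℝ) / 2 ^ h| * 2 ^ h =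
      |(x - ((⌊(2 : ℝ) ^ h * x⌋ : ℤ) : ℝ) / 2 ^ h) * 2 ^ h| := by rw [abs_mul, abs_of_pos p]
  rw [le_div_iff₀ p, e5]
  have e : (x - ((⌊(2 : ℝ) ^ h * x⌋ : ℤ) : ℝ) / 2 ^ h) * 2 ^ h =
      2 ^ h * x - ((⌊(2 : ℝ) ^ h * x⌋ : ℤ) : ℝ) := by
    field_simp
  rw [e, abs_le]
  constructor <;> linarith

/-- The label is almost independent of the point, given the box. -/
theorem LabD.mi (D : LabD q b al V nu G X h K θ) (hfew : CH q G (fun ω => (b ω, al ω)) ≤ θ)
    (honce : CH q al b ≤ CH q al (fun ω => ((V ω, dg h (nu ω)), b ω)) + θ) :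
    CH q G b ≤ CH q G (fun ω => (b ω, (V ω, dg h (nu ω)))) + 2 * θ := by
  have h0 := D.isLaw.nonneg
  obtain ⟨x, hx⟩ : ∃ x : Ω → (Fin m → ℤ) × ℤ, x = fun ω => (V ω, dg h (nu ω)) := ⟨_, rfl⟩
  have e1 : (fun ω => ((V ω, dg h (nu ω)), b ω)) = fun ω => (x ω, b ω) := by rw [hx]
  have e2 : (fun ω => (b ω, (V ω, dg h (nu ω)))) = fun ω => (b ω, x ω) := by rw [hx]
  rw [e1] at honce
  rw [e2, CH_swc h0 G b x]
  have h1 := mi_sw h0 G x b
  have h2 : CH q x (fun ω => ((G ω, al ω), b ω)) ≤ CH q x (fun ω => (G ω, b ω)) :=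
    CH_mono_cond h0 fun _ _ _ _ e => by
      have e1 := congrArg (fun x => x.1.1) e
      have e2 := congrArg (fun x => x.2) e
      exact Prod.ext e1 e2
  have h3 := mi_sw h0 x (fun ω => (G ω, al ω)) b
  have h4 := CH_chain h0 G al b
  have h5 := CH_chain h0 G al (fun ω => (x ω, b ω))
  have h6 := CH_nonneg h0 G (fun ω => (al ω, (x ω, b ω)))
  have h7 := CH_swc h0 G al b
  linarith

/-- **(C2)** Two copies of the label given the point are the same up to a constant. -/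
theorem few (m K : ℕ) {c₀ ε : ℝ} (hc₀ : 0 < c₀) (hε : 0 < ε) :
    ∃ (h₁ : ℕ) (κ ρ ι : ℝ), 0 < κ ∧ 0 < ρ ∧ 0 < ι ∧ ∀ (Ω β α : Type) [Fintype Ω] (q : Ω → ℝ)
      (b : Ω → β) (al : Ω → α) (V : Ω → Fin m → ℤ) (nu : Ω → ℝ) (G : Ω → Pl m) (X h : ℕ),
      h₁ ≤ h → LabD q b al V nu G X h K (ι * h) →
      CH q G (fun ω => (b ω, al ω)) ≤ ι * h →
      CH q al b ≤ CH q al (fun ω => ((V ω, dg h (nu ω)), b ω)) + ι * h →
      NFb q b V nu h c₀ κ ρ → ∀ H : ℕ, (H : ℝ) ≤ (1 - ε) * h →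
        Pb (glue q q (fun ω => (b ω, (V ω, dg h (nu ω)))) (fun ω => (b ω, (V ω, dg h (nu ω)))))
          (fun w => Lg H (G w.1 - G w.2)) ≤ ε := by
  classical
  obtain ⟨h₁, κ, ρ, ι, hκ, hρ, hι, hk⟩ := key3m m K 1 hc₀ hε
  refine ⟨max h₁ ⌈2 / ι⌉₊, κ, ρ, ι / 4, hκ, hρ, by positivity, ?_⟩
  intro Ω β α _ q b al V nu G X h hh D hfew honce hnf H hH
  have hq := D.isLaw
  have h0 := hq.nonneg
  have hh2 : 2 ≤ ι * h := by
    have h1 := Nat.le_ceil (2 / ι)
    have h2 : ((⌈2 / ι⌉₊ : ℕ) : ℝ) ≤ h := by exact_mod_cast (le_max_right _ _).trans hh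
    have h3 : 2 / ι ≤ h := h1.trans h2
    rw [div_le_iff₀ hι] at h3
    linarith
  obtain ⟨g, hg⟩ : ∃ g : Ω → β × ((Fin m → ℤ) × ℤ), g = fun ω => (b ω, (V ω, dg h (nu ω))) :=
    ⟨_, rfl⟩
  rw [← hg]
  have hZ : ∀ z, law q g z = law q g z := fun _ => rfl
  have hq₂ : IsLaw (glue q q g g) := isLaw_gl hq g
  have h20 := hq₂.nonneg
  have hpos : ∀ w, 0 < glue q q g g w → 0 < q w.1 ∧ 0 < q w.2 ∧ g w.1 = g w.2 :=
    fun w hw => (glue_pos_iff h0 h0 w).1 hw
  have hgb : ∀ w, 0 < glue q q g g w → b w.1 = b w.2 := by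
    intro w hw
    have := (hpos w hw).2.2
    rw [hg] at this
    exact congrArg (fun x => x.1) this
  have hgV : ∀ w, 0 < glue q q g g w → V w.1 = V w.2 := by
    intro w hw
    have := (hpos w hw).2.2
    rw [hg] at this
    exact congrArg (fun x => x.2.1) this
  have hgn : ∀ w, 0 < glue q q g g w → dg h (nu w.1) = dg h (nu w.2) := by
    intro w hw
    have := (hpos w hw).2.2
    rw [hg] at this
    exact congrArg (fun x => x.2.2) this
  obtain ⟨n, hn⟩ : ∃ n : Ω → ℤ, n = fun ω => dg h (nu ω - pe X V G ω) := ⟨_, rfl⟩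
  have hfull := D.full
  have hind := D.ind
  have hmi := D.mi hfew honce
  have en : (fun ω => (dg h (nu ω - pe X V G ω), (G ω, (b ω, al ω)))) =
      fun ω => (n ω, (G ω, (b ω, al ω))) := by rw [hn]
  rw [en] at hfull
  rw [← hg] at hmi
  have m1 : Marg (glue q q g g) q (fun w => w.1) := marg_fst h0 hZ
  have m2 : Marg (glue q q g g) q (fun w => w.2) := marg_snd h0 hZ
  obtain ⟨Q, hQ⟩ : ∃ Q : Ω × Ω → Pl m, Q = fun w => (G w.1 - G w.2) -
    MvPolynomial.C (coeff 0 (G w.1 - G w.2)) := ⟨_, rfl⟩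
  have hgoal : (fun w : Ω × Ω => Lg H (G w.1 - G w.2)) = fun w => Lg H (Q w) := by
    funext w
    rw [hQ]
    exact propext (lg_sub_C H _ _).symm
  rw [hgoal]
  refine hk Ω (Ω × Ω) β (Fin m → ℤ) (Pl m) (ℤ × Pl m) q (glue q q g g) (fun w => w.2) b V nu
    (fun w => pe X V G w.2) (fun w => G w.2) (fun w => (n w.1, G w.1)) (fun w => V w.1)
    (fun w => (n w.1 : ℝ) / 2 ^ h + coeff 0 (G w.1 - G w.2)) Q X h hq₂ m2
    ((le_max_left _ _).trans hh) D.h_le (fun w i => D.V_lt w.1 i) ?_ ?_ ?_ ?_ ?_ ?_ ?_ ?_ ?_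
    hnf H hH
  · intro w w' _ _ e
    have e1 : V w.2 = V w'.2 := congrArg (fun x => x.1) e
    have e2 : G w.2 = G w'.2 := congrArg (fun x => x.2.2) e
    show pe X V G w.2 = pe X V G w'.2
    unfold pe
    rw [e1, e2]
  · intro w w' _ _ e
    have e1 : G w.1 = G w'.1 := congrArg (fun x => x.1.2) e
    have e2 : G w.2 = G w'.2 := congrArg (fun x => x.2.2) e
    rw [hQ]
    show (G w.1 - G w.2) - MvPolynomial.C (coeff 0 (G w.1 - G w.2)) =
      (G w'.1 - G w'.2) - MvPolynomial.C (coeff 0 (G w'.1 - G w'.2))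
    rw [e1, e2]
  · intro w w' _ _ e
    have e0 : n w.1 = n w'.1 := congrArg (fun x => x.1.1) e
    have e1 : G w.1 = G w'.1 := congrArg (fun x => x.1.2) e
    have e2 : G w.2 = G w'.2 := congrArg (fun x => x.2.2) e
    show (n w.1 : ℝ) / 2 ^ h + coeff 0 (G w.1 - G w.2) =
      (n w'.1 : ℝ) / 2 ^ h + coeff 0 (G w'.1 - G w'.2)
    rw [e0, e1, e2]
  · intro w hw
    rw [hQ]
    refine (totalDegree_sub_C_le _ _).trans ?_
    exact (totalDegree_sub _ _).trans (max_le (D.deg _ (hpos w hw).1) (D.deg _ (hpos w hw).2.1))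
  · intro w hw
    rw [hQ]
    show coeff 0 ((G w.1 - G w.2) - MvPolynomial.C (coeff 0 (G w.1 - G w.2))) = 0
    rw [coeff_sub, coeff_C, if_pos rfl, sub_self]
  · intro w hw a
    have h1 := D.cf _ (hpos w hw).1 a
    have h2 := D.cf _ (hpos w hw).2.1 a
    have h3 : (2 : ℝ) ^ (ι / 4 * h) + (2 : ℝ) ^ (ι / 4 * h) ≤ (2 : ℝ) ^ (ι * h) := by
      have e1 : (2 : ℝ) ^ (ι / 4 * h) + (2 : ℝ) ^ (ι / 4 * h) = (2 : ℝ) ^ (ι / 4 * h + 1) := by
        rw [Real.rpow_add (by norm_num), Real.rpow_one]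
        ring
      rw [e1]
      refine Real.rpow_le_rpow_of_exponent_le (by norm_num) ?_
      linarith
    rw [hQ]
    show |coeff a ((G w.1 - G w.2) - MvPolynomial.C (coeff 0 (G w.1 - G w.2)))| ≤ _
    rcases eq_or_ne a 0 with rfl | ha
    · rw [coeff_sub, coeff_C, if_pos rfl, sub_self, abs_zero]
      positivity
    · rw [coeff_sub, coeff_C, if_neg (Ne.symm ha), sub_zero, coeff_sub]
      exact (abs_sub _ _).trans ((add_le_add h1 h2).trans h3)
  · intro w hw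
    have e1 := dg_near (hgn w hw)
    have e2 := dg_val h (nu w.1 - pe X V G w.1)
    have e3 : ((dg h (nu w.1 - pe X V G w.1) : ℤ) : ℝ) = (n w.1 : ℝ) := by rw [hn]
    rw [e3] at e2
    have e4 : nu w.2 - pe X V G w.2 - ((n w.1 : ℝ) / 2 ^ h + coeff 0 (G w.1 - G w.2)) -
        eval (fun i => ((V w.1 i : ℤ) : ℝ) / 2 ^ X) (Q w) =
        (nu w.1 - pe X V G w.1 - (n w.1 : ℝ) / 2 ^ h) - (nu w.1 - nu w.2) := by
      rw [hQ]
      unfold pe
      rw [eval_sub, eval_sub, eval_C, hgV w hw]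
      ring
    rw [e4]
    refine (abs_sub _ _).trans ?_
    have e5 : (2 : ℝ) ^ 1 / 2 ^ h = 1 / 2 ^ h + 1 / 2 ^ h := by
      rw [pow_one]
      ring
    rw [e5]
    exact add_le_add e2 e1
  · -- fullness
    obtain ⟨R, hR⟩ : ∃ R : Ω → ℤ × (Pl m × (β × α)), R = fun ω => (n ω, (G ω, (b ω, al ω))) :=
      ⟨_, rfl⟩
    rw [← hR] at hfull
    have s1 : CH (glue q q g g) (fun w => V w.1) (fun w => (G w.2, R w.1)) ≤
        CH (glue q q g g) (fun w => V w.1) (fun w => ((n w.1, G w.1), (b w.2, G w.2))) :=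
      CH_mono_cond h20 fun w w' a a' e => by
        have e1 : G w.2 = G w'.2 := congrArg (fun x => x.1) e
        have e2 : R w.1 = R w'.1 := congrArg (fun x => x.2) e
        rw [hR] at e2
        have e3 : n w.1 = n w'.1 := congrArg (fun x => x.1) e2
        have e4 : G w.1 = G w'.1 := congrArg (fun x => x.2.1) e2
        have e5 : b w.1 = b w'.1 := congrArg (fun x => x.2.2.1) e2
        show ((n w.1, G w.1), (b w.2, G w.2)) = ((n w'.1, G w'.1), (b w'.2, G w'.2))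
        rw [e3, e4, ← hgb w a, e5, hgb w' a', e1]
    have s2 := mi_sw h20 (fun w => V w.1) (fun w => G w.2) (fun w => R w.1)
    have s3 : CH (glue q q g g) (fun w => V w.1) (fun w => R w.1) = CH q V R := m1.CH V R
    have s4 : CH (glue q q g g) (fun w => G w.2) (fun w => R w.1) ≤ CH q G b := by
      rw [← m2.CH G b]
      refine CH_mono_cond h20 fun w w' a a' e => ?_
      rw [hR] at e
      have e5 : b w.1 = b w'.1 := congrArg (fun x => x.2.2.1) e
      show b w.2 = b w'.2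
      rw [← hgb w a, e5, hgb w' a']
    have s5 : CH q G g ≤ CH (glue q q g g) (fun w => G w.2) (fun w => (V w.1, R w.1)) := by
      rw [← CH_glue_snd h0 h0 hZ G (Y := g) (fun ω : Ω => ω) (fun _ _ _ _ h => h)]
      refine CH_mono_cond h20 fun w w' a a' e => ?_
      have e1 : w.1 = w'.1 := congrArg (fun x => x.2) e
      show (V w.1, R w.1) = (V w'.1, R w'.1)
      rw [e1]
    linarith
  · -- independence
    have i1 : CH (glue q q g g) (fun w => dg h (nu w.2 - pe X V G w.2)) (fun w => (b w.2, G w.2)) =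
        CH q (fun ω => dg h (nu ω - pe X V G ω)) (fun ω => (b ω, G ω)) :=
      m2.CH (fun ω => dg h (nu ω - pe X V G ω)) (fun ω => (b ω, G ω))
    have i2 : CH (glue q q g g) (fun w => dg h (nu w.2 - pe X V G w.2))
        (fun w => (V w.2, (b w.2, G w.2))) =
        CH q (fun ω => dg h (nu ω - pe X V G ω)) (fun ω => (V ω, (b ω, G ω))) :=
      m2.CH (fun ω => dg h (nu ω - pe X V G ω)) (fun ω => (V ω, (b ω, G ω)))
    show CH (glue q q g g) (fun w => dg h (nu w.2 - pe X V G w.2)) (fun w => (b w.2, G w.2)) ≤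
      CH (glue q q g g) (fun w => dg h (nu w.2 - pe X V G w.2))
        (fun w => (V w.2, (b w.2, G w.2))) + ι * h
    rw [i1, i2]
    linarith

end Pool.F4L
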