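import Pool.Agent.H42.F4.Leaf

/-!
# Events, truncation, values
-/

set_option autoImplicit false

namespace Pool.F4L

open Finset Real MvPolynomial
open Pool.Agent.H49.Ent Pool.Agent.H32.Dense Pool.STK Pool.BFL Pool.MIC Pool.MIC30
open Pool.TIE (dg CH_box SubL dg_shift' cs_le lip_cs)
open Pool.KAL (coefSum coefSum_nonneg expBox mem_expBox abs_eval_le_coefSum coefSum_aeval_le
  abs_coeff_le)

variable {Ω β α κA : Type} [Fintype Ω] {q : Ω → ℝ} {b : Ω → β} {al : Ω → α}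
  {A : Ω → κA} {nu : Ω → ℝ} {X h K : ℕ} {θ : ℝ}

theorem dg_div {r h : ℕ} (hr : r ≤ h) (x : ℝ) : dg r x = dg h x / 2 ^ (h - r) := by
  unfold Pool.TIE.dg
  have e2 : (2 : ℝ) ^ r * x = 2 ^ h * x / ((2 ^ (h - r) : ℕ) : ℝ) := by
    have e3 : (2 : ℝ) ^ h = 2 ^ (h - r) * 2 ^ r := by
      rw [← pow_add]
      congr 1
      omega
    have e4 : ((2 ^ (h - r) : ℕ) : ℝ) = 2 ^ (h - r) := by push_cast; rfl
    have e5 : (0 : ℝ) < 2 ^ (h - r) := by positivity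
    rw [e4, e3]
    field_simp
  rw [e2, Int.floor_div_natCast]
  push_cast
  rfl

theorem LabD.mono {m : ℕ} {V : Ω → Fin m → ℤ} {G : Ω → Pl m} {θ' : ℝ}
    (L : LabD q b al V nu G X h K θ) (hθ : θ ≤ θ') : LabD q b al V nu G X h K θ' :=
  ⟨L.isLaw, L.h_le, L.V_lt, L.deg, fun ω hω a => (L.cf ω hω a).trans
    (Real.rpow_le_rpow_of_exponent_le (by norm_num) hθ), by linarith [L.full]⟩

/-- Fewer digits of the height. -/
theorem LabD.trunc {m : ℕ} {V : Ω → Fin m → ℤ} {G : Ω → Pl m}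
    (L : LabD q b al V nu G X h K θ) {H : ℕ} (hH : H ≤ h) : LabD q b al V nu G X H K θ := by
  refine ⟨L.isLaw, hH.trans L.h_le, L.V_lt, L.deg, L.cf, L.full.trans ?_⟩
  refine CH_mono_cond L.isLaw.nonneg fun ω ω' _ _ e => ?_
  have e1 : dg h (nu ω - pe X V G ω) = dg h (nu ω' - pe X V G ω') := congrArg (fun x => x.1) e
  have e2 := congrArg (fun x => x.2) e
  refine Prod.ext ?_ e2
  show dg H (nu ω - pe X V G ω) = dg H (nu ω' - pe X V G ω')
  rw [dg_div hH, dg_div hH, e1]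

/-- The data on an event. -/
theorem LabD.ev {m : ℕ} {V : Ω → Fin m → ℤ} {G : Ω → Pl m}
    (L : LabD q b al V nu G X h K θ) (hθ : 0 ≤ θ) (E : Ω → Prop) (hE : 0 < Pb q E) :
    LabD (cond q E True) b al V nu G X h K ((θ + Real.log 2) / Pb q E) := by
  classical
  have hq := L.isLaw
  have h0 := hq.nonneg
  have hpp : ∀ ω, 0 < cond q E True ω → 0 < q ω := fun ω hω => (ev_pos h0 E hω).1
  have hl : 0 ≤ Real.log 2 := Real.log_nonneg (by norm_num)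
  have hE1 : Pb q E ≤ 1 := by
    have := Pb_not hq.sum_one E
    have := Pb_nonneg h0 (fun ω => ¬ E ω)
    linarith
  have hle : θ ≤ (θ + Real.log 2) / Pb q E := by
    rw [le_div_iff₀ hE]
    nlinarith
  refine ⟨isLaw_ev hq E hE, L.h_le, L.V_lt, fun ω hω => L.deg ω (hpp ω hω),
    fun ω hω a => (L.cf ω (hpp ω hω) a).trans
      (Real.rpow_le_rpow_of_exponent_le (by norm_num) hle), ?_⟩
  have h1 := full_ev hq E hE V (fun ω => (dg h (nu ω - pe X V G ω), (G ω, (b ω, al ω))))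
    (M := m * (X * Real.log 2)) (a := 0) le_rfl (fun hF => by
      have hql : IsLaw (cond q E False) :=
        ⟨cond_nonneg h0 E False, sum_cond q E (by rw [law_False]; exact hF.ne')⟩
      rw [add_zero]
      exact CH_box hql V L.V_lt _) L.full
  rw [add_zero] at h1
  exact h1

/-- The level on an event. -/
theorem LevD.ev {k : ℕ} {V : Ω → Fin (k + 1) → ℤ} {j₀ : Fin (k + 1)} {be : Ω → ℝ}
    {sl : Ω → Fin k → ℝ} (hq : IsLaw q) (hV : ∀ ω i, 0 ≤ V ω i ∧ V ω i < 2 ^ X)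
    (T : LevD q b al A V j₀ be sl X θ) (hθ : 0 ≤ θ) (E : Ω → Prop) (hE : 0 < Pb q E) :
    LevD (cond q E True) b al A V j₀ be sl X ((θ + Real.log 2) / Pb q E) := by
  classical
  have h0 := hq.nonneg
  have hpp : ∀ ω, 0 < cond q E True ω → 0 < q ω := fun ω hω => (ev_pos h0 E hω).1
  have hl : 0 ≤ Real.log 2 := Real.log_nonneg (by norm_num)
  have hE1 : Pb q E ≤ 1 := by
    have := Pb_not hq.sum_one E
    have := Pb_nonneg h0 (fun ω => ¬ E ω)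
    linarith
  have hle : θ ≤ (θ + Real.log 2) / Pb q E := by
    rw [le_div_iff₀ hE]
    nlinarith
  refine ⟨fun ω ω' a a' e => T.be_det ω ω' (hpp ω a) (hpp ω' a') e,
    fun ω ω' a a' e => T.sl_det ω ω' (hpp ω a) (hpp ω' a') e,
    fun ω ω' a a' e => T.sl_al ω ω' (hpp ω a) (hpp ω' a') e, fun ω a => ?_, ?_⟩
  · refine (T.near ω (hpp ω a)).trans ?_
    exact div_le_div_of_nonneg_right (Real.rpow_le_rpow_of_exponent_le (by norm_num) hle)
      (by positivity)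
  · have h1 := full_ev hq E hE (fun ω i => V ω (j₀.succAbove i)) (fun ω => (A ω, b ω))
      (M := k * (X * Real.log 2)) (a := 0) le_rfl (fun hF => by
        have hql : IsLaw (cond q E False) :=
          ⟨cond_nonneg h0 E False, sum_cond q E (by rw [law_False]; exact hF.ne')⟩
        rw [add_zero]
        exact CH_box hql _ (fun ω i => hV ω _) _) T.full
    rw [add_zero] at h1
    exact h1

theorem LevD.mono {k : ℕ} {V : Ω → Fin (k + 1) → ℤ} {j₀ : Fin (k + 1)} {be : Ω → ℝ}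
    {sl : Ω → Fin k → ℝ} {θ' : ℝ} (T : LevD q b al A V j₀ be sl X θ) (hθ : θ ≤ θ') :
    LevD q b al A V j₀ be sl X θ' :=
  ⟨T.be_det, T.sl_det, T.sl_al, fun ω a => (T.near ω a).trans
    (div_le_div_of_nonneg_right (Real.rpow_le_rpow_of_exponent_le (by norm_num) hθ)
      (by positivity)), by linarith [T.full]⟩

/-- **A key**, error `2 ^ θ`. -/
structure KeyI {Ω β κA : Type} [Fintype Ω] {m s : ℕ} (q : Ω → ℝ) (b : Ω → β) (A : Ω → κA)
    (V : Ω → Fin m → ℤ) (nu : Ω → ℝ) (Y : Ω → Fin s → ℤ) (S : Ω → Fin m → Pl s) (N : Ω → Pl s)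
    (X h K : ℕ) (θ : ℝ) : Prop where
  Y_lt : ∀ ω i, 0 ≤ Y ω i ∧ Y ω i < 2 ^ X
  S_det : Det q (fun ω => (A ω, b ω)) S
  N_det : Det q (fun ω => (A ω, b ω)) N
  S_deg : ∀ ω, 0 < q ω → ∀ i, (S ω i).totalDegree ≤ K
  N_deg : ∀ ω, 0 < q ω → (N ω).totalDegree ≤ K
  S_cf : ∀ ω, 0 < q ω → ∀ i a, |coeff a (S ω i)| ≤ (2 : ℝ) ^ θ
  N_cf : ∀ ω, 0 < q ω → ∀ a, |coeff a (N ω)| ≤ (2 : ℝ) ^ θ
  S_near : ∀ ω, 0 < q ω → ∀ i,
    |eval (fun j => ((Y ω j : ℤ) : ℝ) / 2 ^ X) (S ω i) - ((V ω i : ℤ) : ℝ) / 2 ^ X| ≤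
      (2 : ℝ) ^ θ / 2 ^ X
  N_near : ∀ ω, 0 < q ω →
    |nu ω - eval (fun j => ((Y ω j : ℤ) : ℝ) / 2 ^ X) (N ω)| ≤ (2 : ℝ) ^ θ / 2 ^ h
  full : s * (X * Real.log 2) - θ ≤ CH q Y (fun ω => (A ω, b ω))

theorem KeyI.keyD {m s : ℕ} {V : Ω → Fin m → ℤ} {Y : Ω → Fin s → ℤ} {S : Ω → Fin m → Pl s}
    {N : Ω → Pl s} {H : ℕ} {θ' : ℝ} (T : KeyI q b A V nu Y S N X h K θ) (hθ : θ ≤ θ')
    (hH : (H : ℝ) + θ ≤ h) : KeyD q b A V nu Y S N X H K 0 θ' := by
  have hle : (2 : ℝ) ^ θ ≤ (2 : ℝ) ^ θ' := Real.rpow_le_rpow_of_exponent_le (by norm_num) hθ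
  refine ⟨T.Y_lt, T.S_det, T.N_det, T.S_deg, T.N_deg, fun ω a i c => (T.S_cf ω a i c).trans hle,
    fun ω a c => (T.N_cf ω a c).trans hle, fun ω a i => (T.S_near ω a i).trans
      (div_le_div_of_nonneg_right hle (by positivity)), fun ω a => (T.N_near ω a).trans ?_,
    by linarith [T.full]⟩
  rw [pow_zero, div_le_div_iff₀ (by positivity) (by positivity), one_mul, ← Real.rpow_natCast,
    ← Real.rpow_natCast, ← Real.rpow_add (by norm_num)]
  exact Real.rpow_le_rpow_of_exponent_le (by norm_num) (by linarith)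

/-- **The label fits the key**: constant height along the leaf. -/
structure Fits {m s : ℕ} (X H : ℕ) (V : Fin m → ℤ) (nu : ℝ) (S : Fin m → Pl s) (N : Pl s)
    (P : Pl m) : Prop where
  fit : ∀ a, a ≠ 0 → |coeff a (N - aeval S P)| ≤ 1 / 2 ^ H
  val : |nu - eval (fun i => ((V i : ℤ) : ℝ) / 2 ^ X) P - coeff 0 (N - aeval S P)| ≤ 1 / 2 ^ H

/-- A polynomial without large nonconstant coefficients. -/
theorem near_const {s K H : ℕ} {P : Pl s} (hP : P.totalDegree ≤ K) (h : ¬ Lg H P)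
    {x : Fin s → ℝ} (hx : ∀ i, |x i| ≤ 1) :
    |eval x P - coeff 0 P| ≤ (expBox (Fin s) K).card * (1 / 2 ^ H) := by
  unfold Lg at h
  push Not at h
  have e1 : eval x P - coeff 0 P = eval x (P - MvPolynomial.C (coeff 0 P)) := by
    rw [eval_sub, eval_C]
  rw [e1]
  refine (abs_eval_le_coefSum _ _ hx).trans ?_
  refine cs_le ((totalDegree_sub_C_le _ _).trans hP) fun a => ?_
  rcases eq_or_ne a 0 with rfl | ha
  · rw [coeff_sub, coeff_C, if_pos rfl, sub_self, abs_zero]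
    positivity
  · rw [coeff_sub, coeff_C, if_neg (Ne.symm ha), sub_zero]
    exact h a ha

/-- **The value of the height over a label which is almost constant on the leaf.** -/
theorem val_near (m s K : ℕ) : ∃ C : ℝ, 1 ≤ C ∧ ∀ (Ω β κA : Type) [Fintype Ω] (q : Ω → ℝ)
    (b : Ω → β) (A : Ω → κA) (V : Ω → Fin m → ℤ) (nu : Ω → ℝ) (Y : Ω → Fin s → ℤ)
    (S : Ω → Fin m → Pl s) (N : Ω → Pl s) (X h H : ℕ) (θ : ℝ), 0 ≤ θ →
    KeyI q b A V nu Y S N X h K θ → (∀ ω i, 0 ≤ V ω i ∧ V ω i < 2 ^ X) →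
    (H : ℝ) + θ ≤ h → (H : ℝ) + 2 * θ ≤ X → ∀ ω, 0 < q ω → ∀ P : Pl m, P.totalDegree ≤ K →
      (∀ a, |coeff a P| ≤ (2 : ℝ) ^ θ) → ¬ Lg H (N ω - aeval (S ω) P) →
      |nu ω - eval (fun i => ((V ω i : ℤ) : ℝ) / 2 ^ X) P - coeff 0 (N ω - aeval (S ω) P)| ≤
        C * (1 / 2 ^ H) := by
  obtain ⟨Dm, hDm⟩ : ∃ D : ℝ, D = (expBox (Fin m) K).card := ⟨_, rfl⟩
  obtain ⟨Ds, hDs⟩ : ∃ D : ℝ, D = (expBox (Fin s) (K + K * K)).card := ⟨_, rfl⟩
  have hDm0 : 0 ≤ Dm := by rw [hDm]; positivity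
  have hDs0 : 0 ≤ Ds := by rw [hDs]; positivity
  refine ⟨1 + K * 2 ^ K * Dm + Ds, by
    have : 0 ≤ K * 2 ^ K * Dm := by positivity
    linarith, ?_⟩
  intro Ω β κA _ q b A V nu Y S N X h H θ hθ T hV hHh hHX ω hω P hP hPc hLg
  obtain ⟨x, hx⟩ : ∃ x : Fin s → ℝ, x = fun j => ((Y ω j : ℤ) : ℝ) / 2 ^ X := ⟨_, rfl⟩
  have hx1 : ∀ i, |x i| ≤ 1 := by
    intro i
    rw [hx]
    have h1 : (0 : ℝ) ≤ (Y ω i : ℤ) := by exact_mod_cast (T.Y_lt ω i).1
    have h2 : ((Y ω i : ℤ) : ℝ) ≤ 2 ^ X := by exact_mod_cast (T.Y_lt ω i).2.le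
    show |((Y ω i : ℤ) : ℝ) / 2 ^ X| ≤ 1
    rw [abs_of_nonneg (by positivity), div_le_one (by positivity)]
    exact h2
  have hv1 : ∀ i, |((V ω i : ℤ) : ℝ) / 2 ^ X| ≤ 1 := by
    intro i
    have h1 : (0 : ℝ) ≤ (V ω i : ℤ) := by exact_mod_cast (hV ω i).1
    have h2 : ((V ω i : ℤ) : ℝ) ≤ 2 ^ X := by exact_mod_cast (hV ω i).2.le
    rw [abs_of_nonneg (by positivity), div_le_one (by positivity)]
    exact h2
  have t1 := T.N_near ω hω
  have t2 := T.S_near ω hω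
  rw [← hx] at t1 t2
  have t3 : (2 : ℝ) ^ θ / 2 ^ h ≤ 1 / 2 ^ H := by
    rw [div_le_div_iff₀ (by positivity) (by positivity), one_mul, ← Real.rpow_natCast,
      ← Real.rpow_natCast, ← Real.rpow_add (by norm_num)]
    exact Real.rpow_le_rpow_of_exponent_le (by norm_num) (by linarith)
  have hHr : (0 : ℝ) ≤ H := Nat.cast_nonneg _
  have hr1 : (2 : ℝ) ^ θ / 2 ^ X ≤ 1 := by
    rw [div_le_one (by positivity), ← Real.rpow_natCast]
    exact Real.rpow_le_rpow_of_exponent_le (by norm_num) (by linarith)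
  have hPs : coefSum P ≤ Dm * (2 : ℝ) ^ θ := by
    rw [hDm]
    exact cs_le hP hPc
  have t4 := lip_cs hP hPs (x := fun i => ((V ω i : ℤ) : ℝ) / 2 ^ X)
    (u := fun i => eval x (S ω i)) hv1 (r := (2 : ℝ) ^ θ / 2 ^ X) (by positivity) hr1
    (fun i _ => t2 i)
  have t5 : K * 2 ^ K * (Dm * (2 : ℝ) ^ θ) * ((2 : ℝ) ^ θ / 2 ^ X) ≤
      K * 2 ^ K * Dm * (1 / 2 ^ H) := by
    have e1 : K * 2 ^ K * (Dm * (2 : ℝ) ^ θ) * ((2 : ℝ) ^ θ / 2 ^ X) =
        (K * 2 ^ K * Dm) * ((2 : ℝ) ^ θ * (2 : ℝ) ^ θ / 2 ^ X) := by ring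
    rw [e1]
    refine mul_le_mul_of_nonneg_left ?_ (by positivity)
    rw [div_le_div_iff₀ (by positivity) (by positivity), one_mul, ← Real.rpow_natCast,
      ← Real.rpow_natCast, ← Real.rpow_add (by norm_num), ← Real.rpow_add (by norm_num)]
    exact Real.rpow_le_rpow_of_exponent_le (by norm_num) (by linarith)
  have hdeg : (N ω - aeval (S ω) P).totalDegree ≤ K + K * K := by
    refine (totalDegree_sub _ _).trans (max_le ((T.N_deg ω hω).trans (by omega)) ?_)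
    refine (deg_aeval P (S ω) (T.S_deg ω hω)).trans ?_
    exact (Nat.mul_le_mul_right _ hP).trans (by omega)
  have t6 := near_const hdeg hLg hx1
  rw [← hDs, eval_sub, eval_aeval] at t6
  have e2 : nu ω - eval (fun i => ((V ω i : ℤ) : ℝ) / 2 ^ X) P - coeff 0 (N ω - aeval (S ω) P) =
      (nu ω - eval x (N ω)) + (eval (fun i => eval x (S ω i)) P -
        eval (fun i => ((V ω i : ℤ) : ℝ) / 2 ^ X) P) + (eval x (N ω) -
        eval (fun i => eval x (S ω i)) P - coeff 0 (N ω - aeval (S ω) P)) := by ring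
  rw [e2]
  have e3 : (1 + K * 2 ^ K * Dm + Ds) * (1 / 2 ^ H) =
      1 / 2 ^ H + K * 2 ^ K * Dm * (1 / 2 ^ H) + Ds * (1 / 2 ^ H) := by ring
  rw [e3]
  refine (abs_add_le _ _).trans (add_le_add ((abs_add_le _ _).trans (add_le_add ?_ ?_)) t6)
  · exact t1.trans t3
  · exact t4.trans t5

end Pool.F4L
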