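import Pool.Agent.H42.F4.Rnd

/-!
# The label fits along every key

(C1): along a leaf through the point (a key) with full position the height over the label is
constant.
-/

set_option autoImplicit false

namespace Pool.F4L

open Finset Real MvPolynomial
open Pool.Agent.H49.Ent Pool.Agent.H32.Dense Pool.STK Pool.BFL Pool.MIC Pool.MIC30
open Pool.TIE (dg CH_box SubL dg_shift' cs_le lip_cs)
open Pool.KAL (coefSum coefSum_nonneg expBox mem_expBox abs_eval_le_coefSum coefSum_aeval_le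
  abs_coeff_le)

theorem deg_aeval {σ τ : Type} (P : MvPolynomial σ ℝ) (f : σ → MvPolynomial τ ℝ) {K : ℕ}
    (hf : ∀ i, (f i).totalDegree ≤ K) : (aeval f P).totalDegree ≤ P.totalDegree * K := by
  classical
  have h1 : aeval f P = ∑ α ∈ P.support, C (coeff α P) * ∏ i ∈ α.support, f i ^ α i := by
    rw [aeval_def, eval₂_eq]
    rfl
  rw [h1]
  refine (totalDegree_finsetSum _ _).trans (Finset.sup_le fun α hα => ?_)
  refine (totalDegree_mul _ _).trans ?_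
  rw [totalDegree_C, zero_add]
  refine (totalDegree_finsetProd _ _).trans ?_
  have h2 : ∑ i ∈ α.support, (f i ^ α i).totalDegree ≤ ∑ i ∈ α.support, α i * K := by
    refine Finset.sum_le_sum fun i _ => ?_
    exact (totalDegree_pow _ _).trans (Nat.mul_le_mul_left _ (hf i))
  refine h2.trans ?_
  rw [← Finset.sum_mul]
  exact Nat.mul_le_mul_right _ (le_totalDegree hα)

theorem eval_aeval {σ τ : Type} (P : MvPolynomial σ ℝ) (f : σ → MvPolynomial τ ℝ) (x : τ → ℝ) :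
    eval x (aeval f P) = eval (fun i => eval x (f i)) P := by
  rw [← coe_aeval_eq_eval, ← coe_aeval_eq_eval]
  rw [RingHom.coe_coe, RingHom.coe_coe, ← AlgHom.comp_apply, comp_aeval]

theorem marg_id {Ω : Type} [Fintype Ω] (q : Ω → ℝ) : Marg q q (fun ω => ω) := by
  classical
  intro ω
  rw [Finset.sum_eq_single ω]
  · simp
  · intro b _ hb
    simp [hb]
  · intro h
    exact absurd (Finset.mem_univ ω) h

/-- **A key**: a leaf `A` through the point. `S` are the base coordinates and `N` is the height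
along the leaf, as polynomials of the position `Y`, which is full given the leaf. -/
structure KeyD {Ω β κA : Type} [Fintype Ω] {m s : ℕ} (q : Ω → ℝ) (b : Ω → β) (A : Ω → κA)
    (V : Ω → Fin m → ℤ) (nu : Ω → ℝ) (Y : Ω → Fin s → ℤ) (S : Ω → Fin m → Pl s) (N : Ω → Pl s)
    (X h K e : ℕ) (θ : ℝ) : Prop where
  Y_lt : ∀ ω i, 0 ≤ Y ω i ∧ Y ω i < 2 ^ X
  S_det : Det q (fun ω => (A ω, b ω)) S
  N_det : Det q (fun ω => (A ω, b ω)) N
  S_deg : ∀ ω, 0 < q ω → ∀ i, (S ω i).totalDegree ≤ K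
  N_deg : ∀ ω, 0 < q ω → (N ω).totalDegree ≤ K
  S_cf : ∀ ω, 0 < q ω → ∀ i a, |coeff a (S ω i)| ≤ (2 : ℝ) ^ θ
  N_cf : ∀ ω, 0 < q ω → ∀ a, |coeff a (N ω)| ≤ (2 : ℝ) ^ θ
  S_near : ∀ ω, 0 < q ω → ∀ i,
    |eval (fun j => ((Y ω j : ℤ) : ℝ) / 2 ^ X) (S ω i) - ((V ω i : ℤ) : ℝ) / 2 ^ X| ≤
      (2 : ℝ) ^ θ / 2 ^ X
  N_near : ∀ ω, 0 < q ω →
    |nu ω - eval (fun j => ((Y ω j : ℤ) : ℝ) / 2 ^ X) (N ω)| ≤ 2 ^ e / 2 ^ h
  full : s * (X * Real.log 2) - θ ≤ CH q Y (fun ω => (A ω, b ω))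

/-- The height over the label along the leaf. -/
noncomputable def ov {Ω : Type} {m s : ℕ} (G : Ω → Pl m) (S : Ω → Fin m → Pl s) (N : Ω → Pl s)
    (ω : Ω) : Pl s := N ω - aeval (S ω) (G ω)

/-- **(C1)** -/
theorem key_fit (m s K e : ℕ) {c₀ ε : ℝ} (hc₀ : 0 < c₀) (hε : 0 < ε) :
    ∃ (h₁ : ℕ) (κ ρ ι : ℝ), 0 < κ ∧ 0 < ρ ∧ 0 < ι ∧ ∀ (Ω β α κA : Type) [Fintype Ω] (q : Ω → ℝ)
      (b : Ω → β) (al : Ω → α) (A : Ω → κA) (V : Ω → Fin m → ℤ) (nu : Ω → ℝ) (G : Ω → Pl m)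
      (Y : Ω → Fin s → ℤ) (S : Ω → Fin m → Pl s) (N : Ω → Pl s) (X h : ℕ), h₁ ≤ h → 2 * h ≤ X →
      LabD q b al V nu G X h K (ι * h) → CH q G b ≤ ι * h →
      KeyD q b A V nu Y S N X h K e (ι * h) → NFb q b V nu h c₀ κ ρ →
      ∀ H : ℕ, (H : ℝ) ≤ (1 - ε) * h → Pb q (fun ω => Lg H (ov G S N ω)) ≤ ε := by
  classical
  obtain ⟨h₁, κ, ρ, ι, hκ, hρ, hι, hk⟩ := key3m s (K + K * K) (e + 1) hc₀ hε
  obtain ⟨Dm, hDm⟩ : ∃ D : ℝ, D = (expBox (Fin m) K).card := ⟨_, rfl⟩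
  obtain ⟨Ds, hDs⟩ : ∃ D : ℝ, D = (expBox (Fin s) K).card := ⟨_, rfl⟩
  have hDm0 : 0 ≤ Dm := by rw [hDm]; positivity
  have hDs0 : 0 ≤ Ds := by rw [hDs]; positivity
  -- constants as powers of two
  obtain ⟨c₁, hc₁⟩ := pow_unbounded_of_one_lt (K * 2 ^ K * Dm) (by norm_num : (1 : ℝ) < 2)
  obtain ⟨c₂, hc₂⟩ := pow_unbounded_of_one_lt ((Ds + 1) ^ K * Dm + 1) (by norm_num : (1 : ℝ) < 2)
  obtain ⟨ι', hι'⟩ : ∃ ι' : ℝ, ι' = min (ι / (2 * (K + 2))) (1 / 4) := ⟨_, rfl⟩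
  have hι'0 : 0 < ι' := by rw [hι']; positivity
  have hι'1 : (K + 2) * ι' ≤ ι / 2 := by
    have h1 : ι' ≤ ι / (2 * (K + 2)) := by rw [hι']; exact min_le_left _ _
    calc (K + 2) * ι' ≤ (K + 2) * (ι / (2 * (K + 2))) :=
          mul_le_mul_of_nonneg_left h1 (by positivity)
      _ = ι / 2 := by field_simp
  have hι'2 : ι' ≤ 1 / 4 := by rw [hι']; exact min_le_right _ _
  refine ⟨max h₁ (max (2 * c₁) ⌈2 * c₂ / ι⌉₊), κ, ρ, ι', hκ, hρ, hι'0, ?_⟩
  intro Ω β α κA _ q b al A V nu G Y S N X h hh hX L hfew T hnf H hH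
  have hq := L.isLaw
  have h0 := hq.nonneg
  have hhr : (0 : ℝ) ≤ h := Nat.cast_nonneg _
  have hK0 : (0 : ℝ) ≤ K := Nat.cast_nonneg _
  have hhc1 : 2 * c₁ ≤ h := (le_max_left _ _).trans ((le_max_right _ _).trans hh)
  have hhc2 : 2 * c₂ ≤ ι * h := by
    have h1 := Nat.le_ceil (2 * c₂ / ι)
    have h2 : ((⌈2 * c₂ / ι⌉₊ : ℕ) : ℝ) ≤ h := by
      exact_mod_cast (le_max_right _ _).trans ((le_max_right _ _).trans hh)
    have h3 := h1.trans h2
    rw [div_le_iff₀ hι] at h3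
    linarith
  obtain ⟨θ, hθ⟩ : ∃ θ : ℝ, θ = ι' * h := ⟨_, rfl⟩
  rw [← hθ] at L hfew T
  have hθ0 : 0 ≤ θ := by rw [hθ]; positivity
  have hθK : (K + 2) * θ ≤ ι * h / 2 := by
    rw [hθ, ← mul_assoc]
    calc (K + 2) * ι' * h ≤ ι / 2 * h := mul_le_mul_of_nonneg_right hι'1 hhr
      _ = ι * h / 2 := by ring
  have hθh : θ ≤ h / 4 := by
    rw [hθ]
    nlinarith
  have hθι : 2 * θ ≤ ι * h / 2 := by
    have : 2 * θ ≤ (K + 2) * θ := mul_le_mul_of_nonneg_right (by linarith) hθ0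
    linarith
  have B1 : (1 : ℝ) ≤ (2 : ℝ) ^ θ := Real.one_le_rpow (by norm_num) hθ0
  obtain ⟨P, hP⟩ : ∃ P : Ω → Pl s, P = ov G S N := ⟨_, rfl⟩
  rw [← hP]
  have hgoal : (fun ω => Lg H (P ω)) =
      fun ω => Lg H (P ω - MvPolynomial.C (coeff 0 (P ω))) := by
    funext ω
    exact propext (lg_sub_C H _ _).symm
  rw [hgoal]
  have hPdeg : ∀ ω, 0 < q ω → (P ω).totalDegree ≤ K + K * K := by
    intro ω hω
    rw [hP]
    refine (totalDegree_sub _ _).trans (max_le ((T.N_deg ω hω).trans (by omega)) ?_)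
    refine (deg_aeval (G ω) (S ω) (T.S_deg ω hω)).trans ?_
    exact (Nat.mul_le_mul_right _ (L.deg ω hω)).trans (by omega)
  have hGs : ∀ ω, 0 < q ω → coefSum (G ω) ≤ Dm * (2 : ℝ) ^ θ := by
    intro ω hω
    rw [hDm]
    exact cs_le (L.deg ω hω) (L.cf ω hω)
  have hSs : ∀ ω, 0 < q ω → ∀ i, coefSum (S ω i) ≤ (Ds + 1) * (2 : ℝ) ^ θ := by
    intro ω hω i
    refine (cs_le (T.S_deg ω hω i) (T.S_cf ω hω i)).trans ?_
    rw [← hDs]
    nlinarith
  have hM1 : 1 ≤ (Ds + 1) * (2 : ℝ) ^ θ := by nlinarith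
  have hPc : ∀ ω, 0 < q ω → ∀ a, |coeff a (P ω)| ≤ (2 : ℝ) ^ (ι * h) := by
    intro ω hω a
    have h1 := T.N_cf ω hω a
    have h2 : |coeff a (aeval (S ω) (G ω))| ≤
        ((Ds + 1) * (2 : ℝ) ^ θ) ^ K * (Dm * (2 : ℝ) ^ θ) := by
      refine (abs_coeff_le _ a).trans ?_
      refine (coefSum_aeval_le (G ω) (S ω) _ hM1 (hSs ω hω)).trans ?_
      exact mul_le_mul (pow_le_pow_right₀ hM1 (L.deg ω hω)) (hGs ω hω) (coefSum_nonneg _)
        (by positivity)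
    have h3 : coeff a (P ω) = coeff a (N ω) - coeff a (aeval (S ω) (G ω)) := by
      rw [hP]
      unfold ov
      rw [coeff_sub]
    rw [h3]
    refine (abs_sub _ _).trans ((add_le_add h1 h2).trans ?_)
    have h4 : (2 : ℝ) ^ θ + ((Ds + 1) * (2 : ℝ) ^ θ) ^ K * (Dm * (2 : ℝ) ^ θ) ≤
        ((Ds + 1) ^ K * Dm + 1) * ((2 : ℝ) ^ θ) ^ (K + 1) := by
      rw [mul_pow]
      have e1 : (2 : ℝ) ^ θ ≤ ((2 : ℝ) ^ θ) ^ (K + 1) := le_self_pow₀ B1 (by omega)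
      have e2 : (Ds + 1) ^ K * ((2 : ℝ) ^ θ) ^ K * (Dm * (2 : ℝ) ^ θ) =
          ((Ds + 1) ^ K * Dm) * ((2 : ℝ) ^ θ) ^ (K + 1) := by
        rw [pow_succ]
        ring
      rw [e2]
      linarith
    refine h4.trans ?_
    have h5 : ((Ds + 1) ^ K * Dm + 1) * ((2 : ℝ) ^ θ) ^ (K + 1) ≤
        2 ^ c₂ * ((2 : ℝ) ^ θ) ^ (K + 1) := mul_le_mul_of_nonneg_right hc₂.le (by positivity)
    refine h5.trans ?_
    rw [← Real.rpow_natCast, ← Real.rpow_natCast ((2 : ℝ) ^ θ), ← Real.rpow_mul (by norm_num),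
      ← Real.rpow_add (by norm_num)]
    refine Real.rpow_le_rpow_of_exponent_le (by norm_num) ?_
    push_cast
    have h6 : θ * (K + 1) ≤ (K + 2) * θ := by nlinarith
    linarith
  refine hk Ω Ω β (Fin m → ℤ) (Pl m) κA q q (fun ω => ω) b V nu (fun ω => pe X V G ω) G A Y
    (fun ω => coeff 0 (P ω)) (fun ω => P ω - MvPolynomial.C (coeff 0 (P ω))) X h hq (marg_id q)
    ((le_max_left _ _).trans hh) L.h_le T.Y_lt ?_ ?_ ?_ ?_ ?_ ?_ ?_ ?_ ?_ hnf H hH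
  · intro ω ω' _ _ e
    have e1 : V ω = V ω' := congrArg (fun x => x.1) e
    have e2 : G ω = G ω' := congrArg (fun x => x.2.2) e
    show pe X V G ω = pe X V G ω'
    unfold pe
    rw [e1, e2]
  · intro ω ω' a a' e
    have e1 : A ω = A ω' := congrArg (fun x => x.1) e
    have e2 : b ω = b ω' := congrArg (fun x => x.2.1) e
    have e3 : G ω = G ω' := congrArg (fun x => x.2.2) e
    have e4 : P ω = P ω' := by
      rw [hP]
      unfold ov
      rw [T.S_det ω ω' a a' (Prod.ext e1 e2), T.N_det ω ω' a a' (Prod.ext e1 e2), e3]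
    show P ω - MvPolynomial.C (coeff 0 (P ω)) = P ω' - MvPolynomial.C (coeff 0 (P ω'))
    rw [e4]
  · intro ω ω' a a' e
    have e1 : A ω = A ω' := congrArg (fun x => x.1) e
    have e2 : b ω = b ω' := congrArg (fun x => x.2.1) e
    have e3 : G ω = G ω' := congrArg (fun x => x.2.2) e
    have e4 : P ω = P ω' := by
      rw [hP]
      unfold ov
      rw [T.S_det ω ω' a a' (Prod.ext e1 e2), T.N_det ω ω' a a' (Prod.ext e1 e2), e3]
    show coeff 0 (P ω) = coeff 0 (P ω')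
    rw [e4]
  · intro ω hω
    exact (totalDegree_sub_C_le _ _).trans (hPdeg ω hω)
  · intro ω _
    show coeff 0 (P ω - MvPolynomial.C (coeff 0 (P ω))) = 0
    rw [coeff_sub, coeff_C, if_pos rfl, sub_self]
  · intro ω hω a
    show |coeff a (P ω - MvPolynomial.C (coeff 0 (P ω)))| ≤ _
    rcases eq_or_ne a 0 with rfl | ha
    · rw [coeff_sub, coeff_C, if_pos rfl, sub_self, abs_zero]
      positivity
    · rw [coeff_sub, coeff_C, if_neg (Ne.symm ha), sub_zero]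
      exact hPc ω hω a
  · intro ω hω
    have h1 := T.N_near ω hω
    obtain ⟨x, hx⟩ : ∃ x : Fin s → ℝ, x = fun j => ((Y ω j : ℤ) : ℝ) / 2 ^ X := ⟨_, rfl⟩
    have hSn := T.S_near ω hω
    rw [← hx] at h1 hSn
    have h2 : eval x (P ω) = eval x (N ω) - eval (fun i => eval x (S ω i)) (G ω) := by
      rw [hP]
      unfold ov
      rw [eval_sub, eval_aeval]
    have hv1 : ∀ i, |((V ω i : ℤ) : ℝ) / 2 ^ X| ≤ 1 := by
      intro i
      have h1 : (0 : ℝ) ≤ (V ω i : ℤ) := by exact_mod_cast (L.V_lt ω i).1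
      have h2 : ((V ω i : ℤ) : ℝ) ≤ 2 ^ X := by exact_mod_cast (L.V_lt ω i).2.le
      rw [abs_of_nonneg (by positivity), div_le_one (by positivity)]
      exact h2
    have hr1 : (2 : ℝ) ^ θ / 2 ^ X ≤ 1 := by
      rw [div_le_one (by positivity), ← Real.rpow_natCast]
      refine Real.rpow_le_rpow_of_exponent_le (by norm_num) ?_
      have : (2 : ℝ) * h ≤ X := by exact_mod_cast hX
      linarith
    have h3 := lip_cs (L.deg ω hω) (hGs ω hω) (x := fun i => ((V ω i : ℤ) : ℝ) / 2 ^ X)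
      (u := fun i => eval x (S ω i)) hv1 (r := (2 : ℝ) ^ θ / 2 ^ X) (by positivity) hr1
      (fun i _ => hSn i)
    have h4 : K * 2 ^ K * (Dm * (2 : ℝ) ^ θ) * ((2 : ℝ) ^ θ / 2 ^ X) ≤ 1 / 2 ^ h := by
      have e1 : K * 2 ^ K * (Dm * (2 : ℝ) ^ θ) * ((2 : ℝ) ^ θ / 2 ^ X) =
          (K * 2 ^ K * Dm) * ((2 : ℝ) ^ θ * (2 : ℝ) ^ θ) / 2 ^ X := by ring
      rw [e1, div_le_div_iff₀ (by positivity) (by positivity), one_mul]
      have e2 : (K * 2 ^ K * Dm) * ((2 : ℝ) ^ θ * (2 : ℝ) ^ θ) * 2 ^ h ≤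
          2 ^ c₁ * ((2 : ℝ) ^ θ * (2 : ℝ) ^ θ) * 2 ^ h := by
        refine mul_le_mul_of_nonneg_right (mul_le_mul_of_nonneg_right hc₁.le ?_) ?_ <;> positivity
      refine e2.trans ?_
      rw [← Real.rpow_natCast, ← Real.rpow_natCast, ← Real.rpow_natCast,
        ← Real.rpow_add (by norm_num), ← Real.rpow_add (by norm_num),
        ← Real.rpow_add (by norm_num)]
      refine Real.rpow_le_rpow_of_exponent_le (by norm_num) ?_
      have e3 : (2 : ℝ) * h ≤ X := by exact_mod_cast hX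
      have e4 : (2 : ℝ) * c₁ ≤ h := by exact_mod_cast hhc1
      linarith
    have h5 : nu ω - pe X V G ω - coeff 0 (P ω) -
        eval (fun j => ((Y ω j : ℤ) : ℝ) / 2 ^ X) (P ω - MvPolynomial.C (coeff 0 (P ω))) =
        (nu ω - eval x (N ω)) + (eval (fun i => eval x (S ω i)) (G ω) -
          eval (fun i => ((V ω i : ℤ) : ℝ) / 2 ^ X) (G ω)) := by
      rw [← hx, eval_sub, eval_C, h2]
      unfold pe
      ring
    rw [h5]
    refine (abs_add_le _ _).trans ?_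
    have h6 : (2 : ℝ) ^ (e + 1) / 2 ^ h = 2 ^ e / 2 ^ h + 2 ^ e / 2 ^ h := by
      rw [pow_succ]
      ring
    rw [h6]
    have h7 : (1 : ℝ) / 2 ^ h ≤ 2 ^ e / 2 ^ h :=
      div_le_div_of_nonneg_right (one_le_pow₀ (by norm_num)) (by positivity)
    exact add_le_add h1 ((h3.trans h4).trans h7)
  · -- fullness
    have f1 : CH q Y (fun ω => (G ω, (A ω, b ω))) ≤ CH q Y (fun ω => (A ω, (b ω, G ω))) :=
      CH_mono_cond h0 fun _ _ _ _ e => by
        have e1 := congrArg (fun x => x.1) e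
        have e2 := congrArg (fun x => x.2.1) e
        have e3 := congrArg (fun x => x.2.2) e
        exact Prod.ext e2 (Prod.ext e3 e1)
    have f2 := mi_sw h0 Y G (fun ω => (A ω, b ω))
    have f3 := CH_nonneg h0 G (fun ω => (Y ω, (A ω, b ω)))
    have f4 : CH q G (fun ω => (A ω, b ω)) ≤ CH q G b :=
      CH_mono_cond h0 fun _ _ _ _ e => congrArg (fun x => x.2) e
    have f5 := T.full
    linarith
  · have i1 := L.ind
    linarith

end Pool.F4L
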