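import Pool.Agent.H42.JM.Key3

/-!
# The third key on an extension

Nonfull rows for sub-laws, the height over a known polynomial.
-/

set_option autoImplicit false

namespace Pool.F4L

open Finset Real MvPolynomial
open Pool.Agent.H49.Ent Pool.Agent.H32.Dense Pool.STK Pool.BFL Pool.MIC Pool.MIC30
open Pool.TIE (dg CH_box SubL dg_shift')

variable {Ω Ω₂ : Type} [Fintype Ω] [Fintype Ω₂] {q : Ω → ℝ} {q₂ : Ω₂ → ℝ}

/-- **Nonfull rows** of the height given the base, for all sub-laws. -/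
def NFb {β υ : Type} (q : Ω → ℝ) (b : Ω → β) (V : Ω → υ) (nu : Ω → ℝ) (h : ℕ)
    (c₀ κ ρ : ℝ) : Prop :=
  ∀ (Ω' : Type) [Fintype Ω'] (q' : Ω' → ℝ) (f : Ω' → Ω), SubL q ρ q' f →
    ∀ r r' : ℕ, r ≤ r' → r' ≤ h → κ * h ≤ (r' : ℝ) - r →
      CH q' (fun ω => dg r' (nu (f ω))) (fun ω => (dg r (nu (f ω)), (V (f ω), b (f ω)))) ≤
        (1 - c₀) * ((r' : ℝ) - r) * Real.log 2

omit [Fintype Ω] in
/-- An event of an extension gives a sub-law. -/
theorem subL_mev (hq : IsLaw q₂) {pr : Ω₂ → Ω} (hm : Marg q₂ q pr) (E : Ω₂ → Prop) {ρ : ℝ}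
    (hρ : 0 < ρ) (hE : ρ ≤ Pb q₂ E) : SubL q ρ (cond q₂ E True) pr := by
  classical
  have hE0 : 0 < Pb q₂ E := hρ.trans_le hE
  refine ⟨isLaw_ev hq E hE0, fun ω => ?_⟩
  have h1 : law (cond q₂ E True) pr ω * Pb q₂ E ≤ q ω := by
    rw [← hm ω]
    unfold law
    rw [Finset.sum_mul]
    refine Finset.sum_le_sum fun w _ => ?_
    by_cases h : pr w = ω
    · rw [if_pos h, if_pos h]
      unfold Pool.Agent.H49.Ent.cond
      rw [law_True]
      by_cases hw : E w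
      · rw [if_pos (by simpa using hw), div_mul_cancel₀ _ hE0.ne']
      · rw [if_neg (by simpa using hw), zero_mul]
        exact hq.nonneg w
    · rw [if_neg h, if_neg h, zero_mul]
  have h2 : 0 ≤ law (cond q₂ E True) pr ω := law_nonneg (cond_nonneg hq.nonneg E True) _ _
  calc ρ * law (cond q₂ E True) pr ω ≤ Pb q₂ E * law (cond q₂ E True) pr ω :=
        mul_le_mul_of_nonneg_right hE h2
    _ ≤ q ω := by rw [mul_comm]; exact h1

/-- The symmetry of the mutual information. -/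
theorem mi_sw {p : Ω → ℝ} (hp : ∀ ω, 0 ≤ p ω) {S T U : Type} (A : Ω → S) (B : Ω → T)
    (W : Ω → U) :
    CH p A W - CH p A (fun ω => (B ω, W ω)) = CH p B W - CH p B (fun ω => (A ω, W ω)) := by
  have h1 := CH_chain hp A B W
  have h2 := CH_chain hp B A W
  have h3 := CH_swl hp A B W
  linarith

/-- Shift by a known number. -/
theorem CH_shift {p : Ω → ℝ} (hp : IsLaw p) {T : Type} (W : Ω → T) (nu g : Ω → ℝ)
    (hg : Det p W g) (h : ℕ) :
    CH p (fun ω => dg h (nu ω - g ω)) (fun ω => (dg h (nu ω), W ω)) ≤ Real.log 3 := by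
  refine (CH_le_int hp.nonneg hp.sum_one _ _ (fun _ => 1) ?_).trans ?_
  · intro ω ω' a a' e
    have e1 : dg h (nu ω) = dg h (nu ω') := congrArg Prod.fst e
    have e2 : g ω = g ω' := hg ω ω' a a' (congrArg Prod.snd e)
    rw [e2]
    exact dg_shift' e1
  · rw [Ex_const hp.sum_one]
    norm_num

/-- Rows of the height over a known number. -/
theorem rows_shift {p : Ω → ℝ} (hp : IsLaw p) {T : Type} (W : Ω → T) (nu g : Ω → ℝ)
    (hg : Det p W g) (h r : ℕ) :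
    CH p (fun ω => dg h (nu ω - g ω)) (fun ω => (dg r (nu ω - g ω), W ω)) ≤
      CH p (fun ω => dg h (nu ω)) (fun ω => (dg r (nu ω), W ω)) + 2 * Real.log 3 := by
  have h0 := hp.nonneg
  obtain ⟨A, hA⟩ : ∃ A : Ω → ℤ, A = fun ω => dg h (nu ω - g ω) := ⟨_, rfl⟩
  obtain ⟨B, hB⟩ : ∃ B : Ω → ℤ, B = fun ω => dg h (nu ω) := ⟨_, rfl⟩
  obtain ⟨A', hA'⟩ : ∃ A' : Ω → ℤ, A' = fun ω => dg r (nu ω - g ω) := ⟨_, rfl⟩
  obtain ⟨B', hB'⟩ : ∃ B' : Ω → ℤ, B' = fun ω => dg r (nu ω) := ⟨_, rfl⟩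
  have e1 := CH_shift hp W nu g hg h
  have e2 : CH p B' (fun ω => (A' ω, W ω)) ≤ Real.log 3 := by
    have e3 := CH_shift hp W (fun ω => nu ω - g ω) (fun ω => - g ω)
      (fun ω ω' a a' e => congrArg Neg.neg (hg ω ω' a a' e)) r
    have e4 : (fun ω => dg r (nu ω - g ω - -g ω)) = B' := by
      rw [hB']
      funext ω
      congr 1
      ring
    rw [e4] at e3
    rw [hA']
    exact e3
  change CH p (fun ω => dg h (nu ω - g ω)) (fun ω => (dg r (nu ω - g ω), W ω)) ≤ _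
  rw [← hA]
  have e5 : (fun ω => (dg r (nu ω - g ω), W ω)) = fun ω => (A' ω, W ω) := by rw [hA']
  have e6 : (fun ω => (dg r (nu ω), W ω)) = fun ω => (B' ω, W ω) := by rw [hB']
  rw [e5, e6, ← hB]
  rw [← hA] at e1
  have e7 : (fun ω => (dg h (nu ω), W ω)) = fun ω => (B ω, W ω) := by rw [hB]
  rw [e7] at e1
  have c1 : CH p A (fun ω => (A' ω, W ω)) ≤ CH p (fun ω => (A ω, B' ω)) (fun ω => (A' ω, W ω)) :=
    CH_mono_left h0 fun _ _ _ _ e => (Prod.ext_iff.1 (Prod.ext_iff.1 e).1).1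
  rw [CH_chain h0] at c1
  have c2 : CH p A (fun ω => (B' ω, (A' ω, W ω))) ≤ CH p A (fun ω => (B' ω, W ω)) :=
    CH_mono_cond h0 fun _ _ _ _ e => by
      have e8 := congrArg (fun x => x.1) e
      have e9 := congrArg (fun x => x.2.2) e
      exact Prod.ext e8 e9
  have c3 : CH p A (fun ω => (B' ω, W ω)) ≤ CH p (fun ω => (A ω, B ω)) (fun ω => (B' ω, W ω)) :=
    CH_mono_left h0 fun _ _ _ _ e => (Prod.ext_iff.1 (Prod.ext_iff.1 e).1).1
  rw [CH_chain h0] at c3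
  have c4 : CH p A (fun ω => (B ω, (B' ω, W ω))) ≤ CH p A (fun ω => (B ω, W ω)) :=
    CH_mono_cond h0 fun _ _ _ _ e => by
      have e8 := congrArg (fun x => x.1) e
      have e9 := congrArg (fun x => x.2.2) e
      exact Prod.ext e8 e9
  linarith

/-- **The third key on an extension**, the height over a known number `g`. -/
theorem key3m (s K e : ℕ) {c₀ ε : ℝ} (hc₀ : 0 < c₀) (hε : 0 < ε) :
    ∃ (h₁ : ℕ) (κ ρ ι : ℝ), 0 < κ ∧ 0 < ρ ∧ 0 < ι ∧
      ∀ (Ω Ω₂ β υ γ κ' : Type) [Fintype Ω] [Fintype Ω₂] (q : Ω → ℝ) (q₂ : Ω₂ → ℝ) (pr : Ω₂ → Ω)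
        (b : Ω → β) (V : Ω → υ) (nu : Ω → ℝ) (g : Ω₂ → ℝ) (G : Ω₂ → γ) (L : Ω₂ → κ')
        (Y : Ω₂ → Fin s → ℤ) (cst : Ω₂ → ℝ) (Q : Ω₂ → Pl s) (X h : ℕ), IsLaw q₂ →
        Marg q₂ q pr → h₁ ≤ h → h ≤ X → (∀ w i, 0 ≤ Y w i ∧ Y w i < 2 ^ X) →
        Det q₂ (fun w => (V (pr w), (b (pr w), G w))) g →
        Det q₂ (fun w => (L w, (b (pr w), G w))) Q →
        Det q₂ (fun w => (L w, (b (pr w), G w))) cst →
        (∀ w, 0 < q₂ w → (Q w).totalDegree ≤ K) → (∀ w, 0 < q₂ w → coeff 0 (Q w) = 0) →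
        (∀ w, 0 < q₂ w → ∀ m, |coeff m (Q w)| ≤ (2 : ℝ) ^ (ι * h)) →
        (∀ w, 0 < q₂ w → |nu (pr w) - g w - cst w -
          eval (fun i => ((Y w i : ℤ) : ℝ) / 2 ^ X) (Q w)| ≤ 2 ^ e / 2 ^ h) →
        s * (X * Real.log 2) - ι * h ≤ CH q₂ Y (fun w => (L w, (b (pr w), G w))) →
        CH q₂ (fun w => dg h (nu (pr w) - g w)) (fun w => (b (pr w), G w)) ≤
          CH q₂ (fun w => dg h (nu (pr w) - g w)) (fun w => (V (pr w), (b (pr w), G w))) + ι * h →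
        NFb q b V nu h c₀ κ ρ →
        ∀ H : ℕ, (H : ℝ) ≤ (1 - ε) * h → Pb q₂ (fun w => Lg H (Q w)) ≤ ε := by
  classical
  obtain ⟨h₁, κ, ρ, ι, hκ, hρ, hι, hk⟩ := Pool.KEY3.key3e s K e (half_pos hc₀) hε
  have hl2 : 0 < Real.log 2 := Real.log_pos (by norm_num)
  have hl3 : 0 ≤ Real.log 3 := Real.log_nonneg (by norm_num)
  refine ⟨max h₁ ⌈4 * Real.log 3 / (c₀ * κ * Real.log 2)⌉₊, κ, ρ, ι, hκ, hρ, hι, ?_⟩
  intro Ω Ω₂ β υ γ κ' _ _ q q₂ pr b V nu g G L Y cst Q X h hq₂ hm hh hX hY hg hQ hc hdeg hc0 hcf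
    hnu hful hind hnf
  have hh2 : 4 * Real.log 3 / (c₀ * κ * Real.log 2) ≤ h := by
    have h1 := Nat.le_ceil (4 * Real.log 3 / (c₀ * κ * Real.log 2))
    have h2 : ((⌈4 * Real.log 3 / (c₀ * κ * Real.log 2)⌉₊ : ℕ) : ℝ) ≤ h := by
      exact_mod_cast (le_max_right _ _).trans hh
    linarith
  rw [div_le_iff₀ (by positivity)] at hh2
  refine hk Ω₂ (β × γ) υ κ' q₂ (fun w => (b (pr w), G w)) (fun w => V (pr w)) L Y
    (fun w => nu (pr w) - g w) cst Q X h hq₂ ((le_max_left _ _).trans hh) hX hY hQ hc hdeg hc0 hcf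
    hnu hful hind ?_
  intro E hE r hr
  have hrh : (r : ℝ) ≤ h := by nlinarith [Nat.cast_nonneg (α := ℝ) h]
  have hrh' : r ≤ h := by exact_mod_cast hrh
  have hp : IsLaw (cond q₂ E True) := isLaw_ev hq₂ E (hρ.trans_le hE)
  have hpp : ∀ w, 0 < cond q₂ E True w → 0 < q₂ w := fun w hw => (ev_pos hq₂.nonneg E hw).1
  have h1 := rows_shift hp (fun w => (V (pr w), (b (pr w), G w))) (fun w => nu (pr w)) g
    (fun w w' a a' e => hg w w' (hpp w a) (hpp w' a') e) h r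
  have h2 : CH (cond q₂ E True) (fun w => dg h (nu (pr w)))
      (fun w => (dg r (nu (pr w)), (V (pr w), (b (pr w), G w)))) ≤
      CH (cond q₂ E True) (fun w => dg h (nu (pr w)))
      (fun w => (dg r (nu (pr w)), (V (pr w), b (pr w)))) :=
    CH_mono_cond hp.nonneg fun _ _ _ _ e => by
      have e1 := congrArg (fun x => x.1) e
      have e2 := congrArg (fun x => x.2.1) e
      have e3 := congrArg (fun x => x.2.2.1) e
      exact Prod.ext e1 (Prod.ext e2 e3)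
  have hκh : κ * h ≤ (h : ℝ) - r := by linarith
  have h3 := hnf Ω₂ (cond q₂ E True) pr (subL_mev hq₂ hm E hρ hE) r h hrh' le_rfl hκh
  have h4 : 2 * Real.log 3 ≤ c₀ / 2 * (((h : ℝ) - r) * Real.log 2) := by
    have h5 : c₀ / 2 * (κ * h * Real.log 2) ≤ c₀ / 2 * (((h : ℝ) - r) * Real.log 2) :=
      mul_le_mul_of_nonneg_left (mul_le_mul_of_nonneg_right hκh hl2.le) (by positivity)
    nlinarith
  have h6 : (1 - c₀ / 2) * (((h : ℝ) - r) * Real.log 2) =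
      (1 - c₀) * ((h : ℝ) - r) * Real.log 2 + c₀ / 2 * (((h : ℝ) - r) * Real.log 2) := by ring
  rw [h6]
  linarith

end Pool.F4L
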