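import Pool.Agent.H42.F4.Kfit

/-!
# The label is determined by the leaf

(C3): two copies of the sample given the leaf `A` and the box `b` have the same label up to a
constant.
-/

set_option autoImplicit false

namespace Pool.F4L

open Finset Real MvPolynomial
open Pool.Agent.H49.Ent Pool.Agent.H32.Dense Pool.STK Pool.BFL Pool.MIC Pool.MIC30
open Pool.TIE (dg CH_box SubL dg_shift' cs_le lip_cs)
open Pool.KAL (coefSum coefSum_nonneg expBox mem_expBox abs_eval_le_coefSum)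

/-- The level of a leaf: `be` is a function of the leaf, `sl` are the slopes. -/
structure LevD {Ω β α κA : Type} [Fintype Ω] {k : ℕ} (q : Ω → ℝ) (b : Ω → β) (al : Ω → α)
    (A : Ω → κA) (V : Ω → Fin (k + 1) → ℤ) (j₀ : Fin (k + 1)) (be : Ω → ℝ) (sl : Ω → Fin k → ℝ)
    (X : ℕ) (θ : ℝ) : Prop where
  be_det : Det q (fun ω => (A ω, b ω)) be
  sl_det : Det q (fun ω => (A ω, b ω)) sl
  sl_al : Det q (fun ω => (b ω, al ω)) sl
  near : ∀ ω, 0 < q ω → |((V ω j₀ : ℤ) : ℝ) / 2 ^ X - be ω -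
    ∑ i, sl ω i * (((V ω (j₀.succAbove i) : ℤ) : ℝ) / 2 ^ X)| ≤ (2 : ℝ) ^ θ / 2 ^ X
  full : k * (X * Real.log 2) - θ ≤
    CH q (fun ω i => V ω (j₀.succAbove i)) (fun ω => (A ω, b ω))

variable {Ω β α κA : Type} [Fintype Ω] {k : ℕ} {q : Ω → ℝ} {b : Ω → β} {al : Ω → α}
  {A : Ω → κA} {V : Ω → Fin (k + 1) → ℤ} {nu : Ω → ℝ} {G : Ω → Pl (k + 1)} {j₀ : Fin (k + 1)}
  {be : Ω → ℝ} {sl : Ω → Fin k → ℝ} {X h K : ℕ} {θ : ℝ}

theorem floor_dist {x y B : ℝ} (h : |x - y| ≤ B) : |((⌊x⌋ - ⌊y⌋ : ℤ) : ℝ)| ≤ B + 1 := by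
  have a1 := Int.floor_le x
  have a2 := Int.lt_floor_add_one x
  have a3 := Int.floor_le y
  have a4 := Int.lt_floor_add_one y
  push_cast
  rw [abs_le] at h ⊢
  constructor <;> linarith [h.1, h.2]

/-- **Fullness of the base of a copy** given the height over the label of the first sample. -/
theorem copy_full (L : LabD q b al V nu G X h K θ) (T : LevD q b al A V j₀ be sl X θ) (hθ : 0 ≤ θ)
    {t : ℕ} (ht : θ ≤ t) (htX : t ≤ X) :
    ((k : ℝ) + 1) * (X * Real.log 2) - (2 * θ + t + 2 * Real.log 9) ≤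
      CH (glue q q (fun ω => (A ω, b ω)) (fun ω => (A ω, b ω))) (fun w => V w.2)
        (fun w => ((dg h (nu w.1 - pe X V G w.1), G w.1), b w.2)) := by
  classical
  have hq := L.isLaw
  have h0 := hq.nonneg
  obtain ⟨g, hg⟩ : ∃ g : Ω → κA × β, g = fun ω => (A ω, b ω) := ⟨_, rfl⟩
  have hbe := T.be_det
  have hsl := T.sl_det
  have hTf := T.full
  rw [← hg] at hbe hsl hTf ⊢
  have hZ : ∀ z, law q g z = law q g z := fun _ => rfl
  have hq₂ : IsLaw (glue q q g g) := isLaw_gl hq g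
  have h20 := hq₂.nonneg
  have hpos : ∀ w, 0 < glue q q g g w → 0 < q w.1 ∧ 0 < q w.2 ∧ g w.1 = g w.2 :=
    fun w hw => (glue_pos_iff h0 h0 w).1 hw
  have hgb : ∀ w, 0 < glue q q g g w → b w.1 = b w.2 := by
    intro w hw
    have := (hpos w hw).2.2
    rw [hg] at this
    exact congrArg (fun x => x.2) this
  have hgbe : ∀ w, 0 < glue q q g g w → be w.1 = be w.2 :=
    fun w hw => hbe _ _ (hpos w hw).1 (hpos w hw).2.1 (hpos w hw).2.2
  have hgsl : ∀ w, 0 < glue q q g g w → sl w.1 = sl w.2 :=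
    fun w hw => hsl _ _ (hpos w hw).1 (hpos w hw).2.1 (hpos w hw).2.2
  have m1 : Marg (glue q q g g) q (fun w => w.1) := marg_fst h0 hZ
  obtain ⟨n, hn⟩ : ∃ n : Ω → ℤ, n = fun ω => dg h (nu ω - pe X V G ω) := ⟨_, rfl⟩
  obtain ⟨R, hR⟩ : ∃ R : Ω → ℤ × (Pl (k + 1) × (β × α)),
    R = fun ω => (n ω, (G ω, (b ω, al ω))) := ⟨_, rfl⟩
  have hfull := L.full
  have en : (fun ω => (dg h (nu ω - pe X V G ω), (G ω, (b ω, al ω)))) = R := by rw [hR, hn]
  rw [en] at hfull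
  have en2 : (fun w : Ω × Ω => ((dg h (nu w.1 - pe X V G w.1), G w.1), b w.2)) =
      fun w => ((n w.1, G w.1), b w.2) := by rw [hn]
  rw [en2]
  obtain ⟨X', hX'⟩ : ∃ X' : ℕ, X' = X - t := ⟨_, rfl⟩
  have hXX : (2 : ℝ) ^ X = 2 ^ X' * 2 ^ t := by
    rw [← pow_add]
    congr 1
    omega
  have pX : (0 : ℝ) < 2 ^ X := by positivity
  have pX' : (0 : ℝ) < 2 ^ X' := by positivity
  have pt : (0 : ℝ) < 2 ^ t := by positivity
  have hθt : (2 : ℝ) ^ θ ≤ 2 ^ t := by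
    rw [← Real.rpow_natCast]
    exact Real.rpow_le_rpow_of_exponent_le (by norm_num) ht
  have hθX : (2 : ℝ) ^ θ / 2 ^ X ≤ 1 / 2 ^ X' := by
    rw [div_le_div_iff₀ pX pX', one_mul, hXX, mul_comm]
    exact mul_le_mul_of_nonneg_left hθt pX'.le
  obtain ⟨lev, hlev⟩ : ∃ lev : Ω → ℤ, lev = fun ω => dg X' (be ω) := ⟨_, rfl⟩
  obtain ⟨z, hz⟩ : ∃ z : Ω → Fin k → ℤ, z = fun ω i => V ω (j₀.succAbove i) := ⟨_, rfl⟩
  rw [← hz] at hTf
  have hnear := T.near
  -- step 1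
  have s1 : CH (glue q q g g) (fun w => V w.2) (fun w => R w.1) ≤
      CH (glue q q g g) (fun w => V w.2) (fun w => ((n w.1, G w.1), b w.2)) := by
    refine CH_mono_cond h20 fun w w' a a' e => ?_
    rw [hR] at e
    have e1 : n w.1 = n w'.1 := congrArg (fun x => x.1) e
    have e2 : G w.1 = G w'.1 := congrArg (fun x => x.2.1) e
    have e3 : b w.1 = b w'.1 := congrArg (fun x => x.2.2.1) e
    show ((n w.1, G w.1), b w.2) = ((n w'.1, G w'.1), b w'.2)
    rw [e1, e2, ← hgb w a, e3, hgb w' a']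
  -- step 2: the level from the copy
  have s2 : CH (glue q q g g) (fun w => lev w.1) (fun w => (V w.2, R w.1)) ≤ Real.log 9 := by
    refine (CH_le_int h20 hq₂.sum_one _ _ (fun _ => 4) ?_).trans ?_
    · intro w w' a a' e
      have e1 : V w.2 = V w'.2 := congrArg (fun x => x.1) e
      have e2 : R w.1 = R w'.1 := congrArg (fun x => x.2) e
      rw [hR] at e2
      have e3 : (b w.1, al w.1) = (b w'.1, al w'.1) := congrArg (fun x => x.2.2) e2
      have e4 : sl w.1 = sl w'.1 := T.sl_al _ _ (hpos w a).1 (hpos w' a').1 e3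
      have d1 := hnear w.2 (hpos w a).2.1
      have d2 := hnear w'.2 (hpos w' a').2.1
      rw [← hgbe w a, ← hgsl w a] at d1
      rw [← hgbe w' a', ← hgsl w' a', ← e1, ← e4] at d2
      have d3 : |be w.1 - be w'.1| ≤ 2 / 2 ^ X' := by
        have e5 : (2 : ℝ) / 2 ^ X' = 1 / 2 ^ X' + 1 / 2 ^ X' := by ring
        rw [e5]
        rw [abs_le] at d1 d2 ⊢
        constructor <;> linarith [d1.1, d1.2, d2.1, d2.2]
      have d4 : |2 ^ X' * be w.1 - 2 ^ X' * be w'.1| ≤ 2 := by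
        rw [← mul_sub, abs_mul, abs_of_pos pX', mul_comm]
        rw [le_div_iff₀ pX'] at d3
        exact d3
      have d5 := floor_dist d4
      rw [hlev]
      show |((dg X' (be w.1) - dg X' (be w'.1) : ℤ) : ℝ)| ≤ 4
      unfold Pool.TIE.dg
      linarith
    · rw [Ex_const hq₂.sum_one]
      norm_num
  -- step 3: chain rules
  have s3 : CH (glue q q g g) (fun w => (z w.2, lev w.1)) (fun w => R w.1) ≤
      CH (glue q q g g) (fun w => (lev w.1, V w.2)) (fun w => R w.1) :=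
    CH_mono_left h20 fun w w' _ _ e => by
      have e1 : lev w.1 = lev w'.1 := congrArg (fun x => x.1.1) e
      have e2 : V w.2 = V w'.2 := congrArg (fun x => x.1.2) e
      have e3 : z w.2 = z w'.2 := by
        rw [hz]
        funext i
        exact congrFun e2 _
      exact Prod.ext e3 e1
  rw [CH_chain h20, CH_chain h20] at s3
  -- step 4: the position of the copy
  have s4 : CH q z g ≤ CH (glue q q g g) (fun w => z w.2) (fun w => (lev w.1, R w.1)) := by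
    rw [← CH_glue_snd h0 h0 hZ z (Y := g) (fun ω : Ω => ω) (fun _ _ _ _ h => h)]
    refine CH_mono_cond h20 fun w w' a a' e => ?_
    have e1 : w.1 = w'.1 := congrArg (fun x => x.2) e
    show (lev w.1, R w.1) = (lev w'.1, R w'.1)
    rw [e1]
  -- step 5: the level is full
  have s5 : CH (glue q q g g) (fun w => lev w.1) (fun w => R w.1) = CH q lev R := m1.CH lev R
  have s6 : CH q V R ≤ CH q (fun ω => ((V ω j₀, z ω), lev ω)) R :=
    CH_mono_left h0 fun ω ω' _ _ e => by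
      have e1 : V ω j₀ = V ω' j₀ := congrArg (fun x => x.1.1.1) e
      have e2 : z ω = z ω' := congrArg (fun x => x.1.1.2) e
      rw [hz] at e2
      funext i
      rcases Fin.eq_self_or_eq_succAbove j₀ i with rfl | ⟨j, rfl⟩
      · exact e1
      · exact congrFun e2 j
  rw [CH_chain h0, CH_chain h0] at s6
  have s7 : CH q z (fun ω => (lev ω, R ω)) ≤ k * (X * Real.log 2) :=
    CH_box hq z (fun ω i => by rw [hz]; exact L.V_lt ω _) _
  have s8 : CH q (fun ω => V ω j₀) (fun ω => (z ω, (lev ω, R ω))) ≤ Real.log 9 + t := by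
    refine (CH_le_int h0 hq.sum_one _ _ (fun _ => 4 * 2 ^ t) ?_).trans ?_
    · intro ω ω' a a' e
      have e1 : z ω = z ω' := congrArg (fun x => x.1) e
      have e2 : lev ω = lev ω' := congrArg (fun x => x.2.1) e
      have e3 : R ω = R ω' := congrArg (fun x => x.2.2) e
      rw [hR] at e3
      have e4 : (b ω, al ω) = (b ω', al ω') := congrArg (fun x => x.2.2) e3
      have e5 : sl ω = sl ω' := T.sl_al _ _ a a' e4
      have d1 := hnear ω a
      have d2 := hnear ω' a'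
      rw [hlev] at e2
      have d3 := dg_near e2
      have e6 : ∀ i, V ω (j₀.succAbove i) = V ω' (j₀.succAbove i) := by
        intro i
        rw [hz] at e1
        exact congrFun e1 i
      have e7 : ∑ i, sl ω' i * (((V ω' (j₀.succAbove i) : ℤ) : ℝ) / 2 ^ X) =
          ∑ i, sl ω i * (((V ω (j₀.succAbove i) : ℤ) : ℝ) / 2 ^ X) := by
        refine Finset.sum_congr rfl fun i _ => ?_
        rw [← e5, ← e6]
      rw [e7] at d2
      have d4 : |((V ω j₀ : ℤ) : ℝ) / 2 ^ X - ((V ω' j₀ : ℤ) : ℝ) / 2 ^ X| ≤ 3 / 2 ^ X' := by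
        have e8 : (3 : ℝ) / 2 ^ X' = 1 / 2 ^ X' + 1 / 2 ^ X' + 1 / 2 ^ X' := by ring
        rw [e8]
        rw [abs_le] at d1 d2 d3 ⊢
        constructor <;> linarith [d1.1, d1.2, d2.1, d2.2, d3.1, d3.2]
      have d5 : |((V ω j₀ : ℤ) : ℝ) - ((V ω' j₀ : ℤ) : ℝ)| ≤ 3 * 2 ^ t := by
        have e9 : ((V ω j₀ : ℤ) : ℝ) / 2 ^ X - ((V ω' j₀ : ℤ) : ℝ) / 2 ^ X =
            (((V ω j₀ : ℤ) : ℝ) - ((V ω' j₀ : ℤ) : ℝ)) / 2 ^ X := by ring
        rw [e9, abs_div, abs_of_pos pX, div_le_div_iff₀ pX pX', hXX] at d4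
        have e10 : |((V ω j₀ : ℤ) : ℝ) - ((V ω' j₀ : ℤ) : ℝ)| * 2 ^ X' ≤ (3 * 2 ^ t) * 2 ^ X' := by
          calc _ ≤ 3 * (2 ^ X' * 2 ^ t) := d4
            _ = _ := by ring
        exact le_of_mul_le_mul_right e10 pX'
      push_cast
      linarith
    · rw [Ex_const hq.sum_one]
      have e1 : Real.log (9 * 2 ^ t) ≤ Real.log 9 + t := by
        rw [Real.log_mul (by norm_num) (by positivity), Real.log_pow]
        have hl2' : Real.log 2 ≤ 1 := by linarith [Real.log_two_lt_d9]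
        have : (t : ℝ) * Real.log 2 ≤ t := mul_le_of_le_one_right (by positivity) hl2'
        linarith
      refine le_trans (Real.log_le_log (by positivity) ?_) e1
      have : (1 : ℝ) ≤ 2 ^ t := one_le_pow₀ (by norm_num)
      linarith
  have e9 : ((k + 1 : ℕ) : ℝ) = (k : ℝ) + 1 := by push_cast; rfl
  rw [e9] at hfull
  linarith


/-- **(C3)** Two copies given the leaf have the same label up to a constant. -/
theorem leaf (k K e : ℕ) {c₀ ε : ℝ} (hc₀ : 0 < c₀) (hε : 0 < ε) :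
    ∃ (h₁ : ℕ) (κ ρ ι : ℝ), 0 < κ ∧ 0 < ρ ∧ 0 < ι ∧ ∀ (Ω β α κA : Type) [Fintype Ω] (q : Ω → ℝ)
      (b : Ω → β) (al : Ω → α) (A : Ω → κA) (V : Ω → Fin (k + 1) → ℤ) (nu : Ω → ℝ)
      (G : Ω → Pl (k + 1)) (j₀ : Fin (k + 1)) (be : Ω → ℝ) (sl : Ω → Fin k → ℝ) (X h : ℕ),
      h₁ ≤ h → 2 * h ≤ X → LabD q b al V nu G X h K (ι * h) → CH q G b ≤ ι * h →
      LevD q b al A V j₀ be sl X (ι * h) →
      (∀ ω ω', 0 < q ω → 0 < q ω' → A ω = A ω' → b ω = b ω' →
        |(nu ω' - eval (fun i => ((V ω' i : ℤ) : ℝ) / 2 ^ X) (G ω)) - (nu ω - pe X V G ω)| ≤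
          2 ^ e / 2 ^ h) →
      NFb q b V nu h c₀ κ ρ → ∀ H : ℕ, (H : ℝ) ≤ (1 - ε) * h →
        Pb (glue q q (fun ω => (A ω, b ω)) (fun ω => (A ω, b ω)))
          (fun w => Lg H (G w.1 - G w.2)) ≤ ε := by
  classical
  obtain ⟨h₁, κ, ρ, ι, hκ, hρ, hι, hk⟩ := key3m (k + 1) K (e + 1) hc₀ hε
  have hl9 : 0 ≤ Real.log 9 := Real.log_nonneg (by norm_num)
  obtain ⟨ι', hι'⟩ : ∃ ι' : ℝ, ι' = min (ι / 16) (1 / 4) := ⟨_, rfl⟩
  have hι'0 : 0 < ι' := by rw [hι']; positivity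
  have hι'1 : ι' ≤ ι / 16 := by rw [hι']; exact min_le_left _ _
  have hι'2 : ι' ≤ 1 / 4 := by rw [hι']; exact min_le_right _ _
  refine ⟨max h₁ (max 2 ⌈8 * (Real.log 9 + 1) / ι⌉₊), κ, ρ, ι', hκ, hρ, hι'0, ?_⟩
  intro Ω β α κA _ q b al A V nu G j₀ be sl X h hh hX L hfew T hrel hnf H hH
  have hq := L.isLaw
  have h0 := hq.nonneg
  have hhr : (0 : ℝ) ≤ h := Nat.cast_nonneg _
  have hh2' : (2 : ℝ) ≤ h := by
    exact_mod_cast (le_max_left _ _).trans ((le_max_right _ _).trans hh)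
  have hh2 : 8 * (Real.log 9 + 1) ≤ ι * h := by
    have h1 := Nat.le_ceil (8 * (Real.log 9 + 1) / ι)
    have h2 : ((⌈8 * (Real.log 9 + 1) / ι⌉₊ : ℕ) : ℝ) ≤ h := by
      exact_mod_cast (le_max_right _ _).trans ((le_max_right _ _).trans hh)
    have h3 := h1.trans h2
    rw [div_le_iff₀ hι] at h3
    linarith
  obtain ⟨θ, hθ⟩ : ∃ θ : ℝ, θ = ι' * h := ⟨_, rfl⟩
  rw [← hθ] at L hfew T
  have hθ0 : 0 ≤ θ := by rw [hθ]; positivity
  have hθι : 16 * θ ≤ ι * h := by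
    have : ι' * h ≤ ι / 16 * h := mul_le_mul_of_nonneg_right hι'1 hhr
    rw [hθ]
    linarith
  have hθh : θ ≤ h / 4 := by
    rw [hθ]
    nlinarith
  obtain ⟨t, ht⟩ : ∃ t : ℕ, t = ⌈θ⌉₊ := ⟨_, rfl⟩
  have ht1 : θ ≤ t := by rw [ht]; exact Nat.le_ceil _
  have ht2 : (t : ℝ) ≤ θ + 1 := by rw [ht]; exact (Nat.ceil_lt_add_one hθ0).le
  have htX : t ≤ X := by
    have h1 : (2 : ℝ) * h ≤ X := by exact_mod_cast hX
    have h2 : (t : ℝ) ≤ X := by linarith
    exact_mod_cast h2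
  have hcf := copy_full L T hθ0 ht1 htX
  obtain ⟨g, hg⟩ : ∃ g : Ω → κA × β, g = fun ω => (A ω, b ω) := ⟨_, rfl⟩
  rw [← hg] at hcf ⊢
  have hZ : ∀ z, law q g z = law q g z := fun _ => rfl
  have hq₂ : IsLaw (glue q q g g) := isLaw_gl hq g
  have h20 := hq₂.nonneg
  have hpos : ∀ w, 0 < glue q q g g w → 0 < q w.1 ∧ 0 < q w.2 ∧ g w.1 = g w.2 :=
    fun w hw => (glue_pos_iff h0 h0 w).1 hw
  obtain ⟨n, hn⟩ : ∃ n : Ω → ℤ, n = fun ω => dg h (nu ω - pe X V G ω) := ⟨_, rfl⟩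
  have en2 : (fun w : Ω × Ω => ((dg h (nu w.1 - pe X V G w.1), G w.1), b w.2)) =
      fun w => ((n w.1, G w.1), b w.2) := by rw [hn]
  rw [en2] at hcf
  have hind := L.ind
  have m2 : Marg (glue q q g g) q (fun w => w.2) := marg_snd h0 hZ
  obtain ⟨Q, hQ⟩ : ∃ Q : Ω × Ω → Pl (k + 1), Q = fun w => (G w.1 - G w.2) -
    MvPolynomial.C (coeff 0 (G w.1 - G w.2)) := ⟨_, rfl⟩
  have hgoal : (fun w : Ω × Ω => Lg H (G w.1 - G w.2)) = fun w => Lg H (Q w) := by
    funext w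
    rw [hQ]
    exact propext (lg_sub_C H _ _).symm
  rw [hgoal]
  refine hk Ω (Ω × Ω) β (Fin (k + 1) → ℤ) (Pl (k + 1)) (ℤ × Pl (k + 1)) q (glue q q g g)
    (fun w => w.2) b V nu (fun w => pe X V G w.2) (fun w => G w.2) (fun w => (n w.1, G w.1))
    (fun w => V w.2) (fun w => (n w.1 : ℝ) / 2 ^ h + coeff 0 (G w.1 - G w.2)) Q X h hq₂ m2
    ((le_max_left _ _).trans hh) L.h_le (fun w i => L.V_lt w.2 i) ?_ ?_ ?_ ?_ ?_ ?_ ?_ ?_ ?_
    hnf H hH
  · intro w w' _ _ e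
    have e1 : V w.2 = V w'.2 := congrArg (fun x => x.1) e
    have e2 : G w.2 = G w'.2 := congrArg (fun x => x.2.2) e
    show pe X V G w.2 = pe X V G w'.2
    unfold pe
    rw [e1, e2]
  · intro w w' _ _ e
    have e1 : G w.1 = G w'.1 := congrArg (fun x => x.1.2) e
    have e2 : G w.2 = G w'.2 := congrArg (fun x => x.2.2) e
    rw [hQ]
    show (G w.1 - G w.2) - MvPolynomial.C (coeff 0 (G w.1 - G w.2)) =
      (G w'.1 - G w'.2) - MvPolynomial.C (coeff 0 (G w'.1 - G w'.2))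
    rw [e1, e2]
  · intro w w' _ _ e
    have e0 : n w.1 = n w'.1 := congrArg (fun x => x.1.1) e
    have e1 : G w.1 = G w'.1 := congrArg (fun x => x.1.2) e
    have e2 : G w.2 = G w'.2 := congrArg (fun x => x.2.2) e
    show (n w.1 : ℝ) / 2 ^ h + coeff 0 (G w.1 - G w.2) =
      (n w'.1 : ℝ) / 2 ^ h + coeff 0 (G w'.1 - G w'.2)
    rw [e0, e1, e2]
  · intro w hw
    rw [hQ]
    refine (totalDegree_sub_C_le _ _).trans ?_
    exact (totalDegree_sub _ _).trans (max_le (L.deg _ (hpos w hw).1) (L.deg _ (hpos w hw).2.1))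
  · intro w hw
    rw [hQ]
    show coeff 0 ((G w.1 - G w.2) - MvPolynomial.C (coeff 0 (G w.1 - G w.2))) = 0
    rw [coeff_sub, coeff_C, if_pos rfl, sub_self]
  · intro w hw a
    have h1 := L.cf _ (hpos w hw).1 a
    have h2 := L.cf _ (hpos w hw).2.1 a
    have h3 : (2 : ℝ) ^ θ + (2 : ℝ) ^ θ ≤ (2 : ℝ) ^ (ι * h) := by
      have e1 : (2 : ℝ) ^ θ + (2 : ℝ) ^ θ = (2 : ℝ) ^ (θ + 1) := by
        rw [Real.rpow_add (by norm_num), Real.rpow_one]
        ring
      rw [e1]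
      refine Real.rpow_le_rpow_of_exponent_le (by norm_num) ?_
      linarith
    rw [hQ]
    show |coeff a ((G w.1 - G w.2) - MvPolynomial.C (coeff 0 (G w.1 - G w.2)))| ≤ _
    rcases eq_or_ne a 0 with rfl | ha
    · rw [coeff_sub, coeff_C, if_pos rfl, sub_self, abs_zero]
      positivity
    · rw [coeff_sub, coeff_C, if_neg (Ne.symm ha), sub_zero, coeff_sub]
      exact (abs_sub _ _).trans ((add_le_add h1 h2).trans h3)
  · intro w hw
    obtain ⟨p1, p2, p3⟩ := hpos w hw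
    rw [hg] at p3
    have e1 := hrel w.1 w.2 p1 p2 (congrArg (fun x => x.1) p3) (congrArg (fun x => x.2) p3)
    have e2 := dg_val h (nu w.1 - pe X V G w.1)
    have e3 : ((dg h (nu w.1 - pe X V G w.1) : ℤ) : ℝ) = (n w.1 : ℝ) := by rw [hn]
    rw [e3] at e2
    have e4 : nu w.2 - pe X V G w.2 - ((n w.1 : ℝ) / 2 ^ h + coeff 0 (G w.1 - G w.2)) -
        eval (fun i => ((V w.2 i : ℤ) : ℝ) / 2 ^ X) (Q w) =
        ((nu w.2 - eval (fun i => ((V w.2 i : ℤ) : ℝ) / 2 ^ X) (G w.1)) -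
          (nu w.1 - pe X V G w.1)) + (nu w.1 - pe X V G w.1 - (n w.1 : ℝ) / 2 ^ h) := by
      rw [hQ]
      unfold pe
      rw [eval_sub, eval_sub, eval_C]
      ring
    rw [e4]
    refine (abs_add_le _ _).trans ?_
    have e5 : (2 : ℝ) ^ (e + 1) / 2 ^ h = 2 ^ e / 2 ^ h + 2 ^ e / 2 ^ h := by
      rw [pow_succ]
      ring
    have e6 : (1 : ℝ) / 2 ^ h ≤ 2 ^ e / 2 ^ h :=
      div_le_div_of_nonneg_right (one_le_pow₀ (by norm_num)) (by positivity)
    rw [e5]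
    exact add_le_add e1 (e2.trans e6)
  · -- fullness
    have f1 : CH (glue q q g g) (fun w => V w.2) (fun w => (G w.2, ((n w.1, G w.1), b w.2))) ≤
        CH (glue q q g g) (fun w => V w.2) (fun w => ((n w.1, G w.1), (b w.2, G w.2))) :=
      CH_mono_cond h20 fun w w' _ _ e => by
        have e1 : G w.2 = G w'.2 := congrArg (fun x => x.1) e
        have e2 : (n w.1, G w.1) = (n w'.1, G w'.1) := congrArg (fun x => x.2.1) e
        have e3 : b w.2 = b w'.2 := congrArg (fun x => x.2.2) e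
        exact Prod.ext e2 (Prod.ext e3 e1)
    have f2 := mi_sw h20 (fun w => V w.2) (fun w => G w.2) (fun w => ((n w.1, G w.1), b w.2))
    have f3 := CH_nonneg h20 (fun w => G w.2) (fun w => (V w.2, ((n w.1, G w.1), b w.2)))
    have f4 : CH (glue q q g g) (fun w => G w.2) (fun w => ((n w.1, G w.1), b w.2)) ≤
        CH (glue q q g g) (fun w => G w.2) (fun w => b w.2) :=
      CH_mono_cond h20 fun _ _ _ _ e => congrArg (fun x => x.2) e
    have f5 : CH (glue q q g g) (fun w => G w.2) (fun w => b w.2) = CH q G b := m2.CH G b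
    have e9 : ((k + 1 : ℕ) : ℝ) = (k : ℝ) + 1 := by push_cast; rfl
    rw [e9]
    linarith
  · -- independence
    have i1 : CH (glue q q g g) (fun w => dg h (nu w.2 - pe X V G w.2)) (fun w => (b w.2, G w.2)) =
        CH q (fun ω => dg h (nu ω - pe X V G ω)) (fun ω => (b ω, G ω)) :=
      m2.CH (fun ω => dg h (nu ω - pe X V G ω)) (fun ω => (b ω, G ω))
    have i2 : CH (glue q q g g) (fun w => dg h (nu w.2 - pe X V G w.2))
        (fun w => (V w.2, (b w.2, G w.2))) =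
        CH q (fun ω => dg h (nu ω - pe X V G ω)) (fun ω => (V ω, (b ω, G ω))) :=
      m2.CH (fun ω => dg h (nu ω - pe X V G ω)) (fun ω => (V ω, (b ω, G ω)))
    show CH (glue q q g g) (fun w => dg h (nu w.2 - pe X V G w.2)) (fun w => (b w.2, G w.2)) ≤
      CH (glue q q g g) (fun w => dg h (nu w.2 - pe X V G w.2))
        (fun w => (V w.2, (b w.2, G w.2))) + ι * h
    rw [i1, i2]
    linarith

end Pool.F4L
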