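import Pool.Agent.H42.F4.Few

/-!
# Rounding the label

The rounded label is a few bits given the box, and the base is full given the height over it.
-/

set_option autoImplicit false

namespace Pool.F4L

open Finset Real MvPolynomial
open Pool.Agent.H49.Ent Pool.Agent.H32.Dense Pool.STK Pool.BFL Pool.MIC Pool.MIC30
open Pool.TIE (dg CH_box SubL dg_shift')
open Pool.KAL (coefSum coefSum_nonneg expBox mem_expBox abs_eval_le_coefSum coefSum_eq_box)

/-- The nonconstant exponents of degree at most `K`. -/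
noncomputable def bx (m K : ℕ) : Finset (Fin m →₀ ℕ) := (expBox (Fin m) K).erase 0

/-- The rounded polynomial, without constant term. -/
noncomputable def rd {m : ℕ} (K H : ℕ) (P : Pl m) : Pl m :=
  ∑ a ∈ bx m K, monomial a ((⌊(2 : ℝ) ^ H * coeff a P⌋ : ℝ) / 2 ^ H)

theorem coeff_rd {m : ℕ} (K H : ℕ) (P : Pl m) (a : Fin m →₀ ℕ) :
    coeff a (rd K H P) = if a ∈ bx m K then (⌊(2 : ℝ) ^ H * coeff a P⌋ : ℝ) / 2 ^ H else 0 := by
  classical
  unfold rd
  rw [coeff_sum]
  simp only [coeff_monomial]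
  rw [Finset.sum_ite_eq' (bx m K) a]

theorem coeff_rd_zero {m : ℕ} (K H : ℕ) (P : Pl m) : coeff 0 (rd K H P) = 0 := by
  rw [coeff_rd, if_neg]
  unfold bx
  simp

theorem rd_deg {m : ℕ} (K H : ℕ) (P : Pl m) : (rd K H P).totalDegree ≤ K := by
  classical
  unfold rd
  refine (totalDegree_finsetSum _ _).trans (Finset.sup_le fun a ha => ?_)
  refine (totalDegree_monomial_le _ _).trans ?_
  have h1 : a.degree ≤ K := (mem_expBox K a).1 (Finset.mem_of_mem_erase ha)
  exact h1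

/-- The rounded coefficients. -/
noncomputable def rdv {m : ℕ} (K H : ℕ) (P : Pl m) (a : bx m K) : ℤ :=
  ⌊(2 : ℝ) ^ H * coeff a.1 P⌋

theorem rd_of_rdv {m : ℕ} {K H : ℕ} {P P' : Pl m} (e : rdv K H P = rdv K H P') :
    rd K H P = rd K H P' := by
  unfold rd
  refine Finset.sum_congr rfl fun a ha => ?_
  have := congrFun e ⟨a, ha⟩
  unfold rdv at this
  simp only at this
  rw [this]

theorem rdv_of_rd {m : ℕ} {K H : ℕ} {P P' : Pl m} (e : rd K H P = rd K H P') :
    rdv K H P = rdv K H P' := by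
  funext a
  have h1 := coeff_rd K H P a.1
  have h2 := coeff_rd K H P' a.1
  rw [if_pos a.2] at h1 h2
  rw [e, h2] at h1
  have p : (0 : ℝ) < 2 ^ H := by positivity
  rw [div_left_inj' p.ne'] at h1
  unfold rdv
  exact_mod_cast h1.symm

theorem bx_mem {m K : ℕ} {P : Pl m} (hP : P.totalDegree ≤ K) {a : Fin m →₀ ℕ} (ha : a ≠ 0)
    (hc : coeff a P ≠ 0) : a ∈ bx m K := by
  refine Finset.mem_erase.2 ⟨ha, ?_⟩
  exact Pool.KAL.support_subset_expBox P K hP (mem_support_iff.2 hc)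

/-- The rounded polynomial is near. -/
theorem rd_near {m K H : ℕ} {P : Pl m} (hP : P.totalDegree ≤ K) {a : Fin m →₀ ℕ} (ha : a ≠ 0) :
    |coeff a (rd K H P) - coeff a P| ≤ 1 / 2 ^ H := by
  rw [coeff_rd]
  have p : (0 : ℝ) < 2 ^ H := by positivity
  by_cases h : a ∈ bx m K
  · rw [if_pos h, le_div_iff₀ p]
    have a1 := Int.floor_le ((2 : ℝ) ^ H * coeff a P)
    have a2 := Int.lt_floor_add_one ((2 : ℝ) ^ H * coeff a P)
    have e5 : |(⌊(2 : ℝ) ^ H * coeff a P⌋ : ℝ) / 2 ^ H - coeff a P| * 2 ^ H =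
        |(⌊(2 : ℝ) ^ H * coeff a P⌋ : ℝ) - 2 ^ H * coeff a P| := by
      rw [← abs_of_pos p, ← abs_mul, abs_of_pos p]
      congr 1
      field_simp
    rw [e5, abs_le]
    constructor <;> linarith
  · rw [if_neg h]
    have h1 : coeff a P = 0 := by
      by_contra hc
      exact h (bx_mem hP ha hc)
    rw [h1, sub_zero, abs_zero]
    positivity

/-- Coefficients differing by little. -/
theorem rdv_near {m K H : ℕ} {P P' : Pl m} (h : ¬ Lg H (P - P')) (a : bx m K) :
    |((rdv K H P a - rdv K H P' a : ℤ) : ℝ)| ≤ 2 := by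
  have p : (0 : ℝ) < 2 ^ H := by positivity
  have ha : a.1 ≠ 0 := Finset.ne_of_mem_erase a.2
  unfold Lg at h
  push Not at h
  have h1 := h a.1 ha
  rw [coeff_sub, le_div_iff₀ p] at h1
  unfold rdv
  have a1 := Int.floor_le ((2 : ℝ) ^ H * coeff a.1 P)
  have a2 := Int.lt_floor_add_one ((2 : ℝ) ^ H * coeff a.1 P)
  have a3 := Int.floor_le ((2 : ℝ) ^ H * coeff a.1 P')
  have a4 := Int.lt_floor_add_one ((2 : ℝ) ^ H * coeff a.1 P')
  have h2 : |2 ^ H * coeff a.1 P - 2 ^ H * coeff a.1 P'| ≤ 1 := by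
    rw [← mul_sub, abs_mul, abs_of_pos p, mul_comm]
    exact h1
  rw [abs_le] at h2
  push_cast
  rw [abs_le]
  constructor <;> linarith [h2.1, h2.2]

/-- Size of the rounded coefficients. -/
theorem rdv_size {m K H : ℕ} {P P' : Pl m} {B : ℝ} (h1 : ∀ a, |coeff a P| ≤ B)
    (h2 : ∀ a, |coeff a P'| ≤ B) (a : bx m K) :
    |((rdv K H P a - rdv K H P' a : ℤ) : ℝ)| ≤ 2 * (2 ^ H * B) + 2 := by
  have p : (0 : ℝ) < 2 ^ H := by positivity
  unfold rdv
  have a1 := Int.floor_le ((2 : ℝ) ^ H * coeff a.1 P)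
  have a2 := Int.lt_floor_add_one ((2 : ℝ) ^ H * coeff a.1 P)
  have a3 := Int.floor_le ((2 : ℝ) ^ H * coeff a.1 P')
  have a4 := Int.lt_floor_add_one ((2 : ℝ) ^ H * coeff a.1 P')
  have b1 : |2 ^ H * coeff a.1 P| ≤ 2 ^ H * B := by
    rw [abs_mul, abs_of_pos p]
    exact mul_le_mul_of_nonneg_left (h1 _) p.le
  have b2 : |2 ^ H * coeff a.1 P'| ≤ 2 ^ H * B := by
    rw [abs_mul, abs_of_pos p]
    exact mul_le_mul_of_nonneg_left (h2 _) p.le
  rw [abs_le] at b1 b2
  push_cast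
  rw [abs_le]
  constructor <;> linarith [b1.1, b1.2, b2.1, b2.2]

/-- Entropy of a vector of integers which is near with high probability. -/
theorem CH_near {Ω T I : Type} [Fintype Ω] [Fintype I] {p : Ω → ℝ} (hp : IsLaw p)
    (x y : Ω → I → ℤ) (W : Ω → T) (hy : Det p W y) (E : Ω → Prop) {δ S : ℝ} (hS : 0 ≤ S)
    (hE : Pb p (fun ω => ¬ E ω) ≤ δ)
    (h1 : ∀ ω, 0 < p ω → E ω → ∀ a, |((x ω a - y ω a : ℤ) : ℝ)| ≤ 2)
    (h2 : ∀ ω, 0 < p ω → ∀ a, |((x ω a - y ω a : ℤ) : ℝ)| ≤ S) :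
    CH p x W ≤ Real.log 2 + Fintype.card I * (Real.log 9 + δ * Real.log (4 * S + 1)) := by
  classical
  have h0 := hp.nonneg
  obtain ⟨d, ⟨e⟩⟩ : ∃ d, Nonempty (I ≃ Fin d) := ⟨_, ⟨Fintype.equivFin I⟩⟩
  have hd : Fintype.card I = d := by
    rw [Fintype.card_congr e, Fintype.card_fin]
  rw [hd]
  obtain ⟨x', hx'⟩ : ∃ x' : Ω → Fin d → ℤ, x' = fun ω k => x ω (e.symm k) := ⟨_, rfl⟩
  have e1 : CH p x W ≤ CH p x' W := by
    refine CH_mono_left h0 fun ω ω' _ _ h => ?_
    have h3 := congrArg (fun x => x.1) h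
    simp only [hx'] at h3
    funext a
    have h4 := congrFun h3 (e a)
    simpa using h4
  have e2 : CH p x' W ≤ CH p (fun ω => (x' ω, E ω)) W :=
    CH_mono_left h0 fun _ _ _ _ h => congrArg (fun x => x.1.1) h
  rw [CH_chain h0] at e2
  have e3 := CH_prop_le h0 hp.sum_one E W
  have e4 := CH_two h0 x' W E
  rw [CH_swc h0 x' W E] at e4
  have hdet : ∀ {r : Ω → ℝ}, (∀ ω, 0 < r ω → 0 < p ω) → ∀ ω ω', 0 < r ω → 0 < r ω' →
      W ω = W ω' → y ω = y ω' := fun hr ω ω' a a' h => hy ω ω' (hr ω a) (hr ω' a') h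
  have b1 : Pb p E * CH (cond p E True) x' W ≤ d * Real.log 9 := by
    rcases (Pb_nonneg h0 E).eq_or_lt with hz | hz
    · rw [← hz, zero_mul]
      have := Real.log_nonneg (by norm_num : (1 : ℝ) ≤ 9)
      positivity
    · have hl := isLaw_ev hp E hz
      have h3 := CH_le_vec hl.nonneg hl.sum_one x' W (fun _ => 4) (by
        intro ω ω' a a' h k
        obtain ⟨a1, a2⟩ := ev_pos h0 E a
        obtain ⟨a3, a4⟩ := ev_pos h0 E a'
        have h5 := h1 ω a1 a2 (e.symm k)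
        have h6 := h1 ω' a3 a4 (e.symm k)
        rw [hy ω ω' a1 a3 h] at h5
        rw [hx']
        push_cast at h5 h6 ⊢
        rw [abs_le] at h5 h6 ⊢
        constructor <;> linarith [h5.1, h5.2, h6.1, h6.2])
      rw [Ex_const hl.sum_one] at h3
      have h4 : Pb p E ≤ 1 := by
        have := Pb_not hp.sum_one E
        have := Pb_nonneg h0 (fun ω => ¬ E ω)
        linarith
      have h5 : CH (cond p E True) x' W ≤ d * Real.log 9 := by
        norm_num at h3
        exact h3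
      have h6 := CH_nonneg hl.nonneg x' W
      calc Pb p E * CH (cond p E True) x' W ≤ 1 * CH (cond p E True) x' W :=
            mul_le_mul_of_nonneg_right h4 h6
        _ ≤ _ := by rw [one_mul]; exact h5
  have b2 : Pb p (fun ω => ¬ E ω) * CH (cond p E False) x' W ≤ d * (δ * Real.log (4 * S + 1)) := by
    have hlS : 0 ≤ Real.log (4 * S + 1) := Real.log_nonneg (by linarith)
    have hδ : 0 ≤ δ := (Pb_nonneg h0 _).trans hE
    rcases (Pb_nonneg h0 (fun ω => ¬ E ω)).eq_or_lt with hz | hz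
    · rw [← hz, zero_mul]
      positivity
    · have hl : IsLaw (cond p E False) :=
        ⟨cond_nonneg h0 E False, sum_cond p E (by rw [law_False]; exact hz.ne')⟩
      have h3 := CH_le_vec hl.nonneg hl.sum_one x' W (fun _ => 2 * S) (by
        intro ω ω' a a' h k
        have a1 := ((cond_pos_iff h0 E False ω).1 a).1
        have a3 := ((cond_pos_iff h0 E False ω').1 a').1
        have h5 := h2 ω a1 (e.symm k)
        have h6 := h2 ω' a3 (e.symm k)
        rw [hy ω ω' a1 a3 h] at h5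
        rw [hx']
        push_cast at h5 h6 ⊢
        rw [abs_le] at h5 h6 ⊢
        constructor <;> linarith [h5.1, h5.2, h6.1, h6.2])
      rw [Ex_const hl.sum_one] at h3
      have h4 : 2 * (2 * S) + 1 = 4 * S + 1 := by ring
      rw [h4] at h3
      calc Pb p (fun ω => ¬ E ω) * CH (cond p E False) x' W ≤ δ * (d * Real.log (4 * S + 1)) :=
            mul_le_mul hE h3 (CH_nonneg hl.nonneg x' W) hδ
        _ = d * (δ * Real.log (4 * S + 1)) := by ring
  have e5 : (d : ℝ) * (Real.log 9 + δ * Real.log (4 * S + 1)) =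
      d * Real.log 9 + d * (δ * Real.log (4 * S + 1)) := by ring
  rw [e5]
  linarith

end Pool.F4L
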