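import Pool.Agent.H42.F4.Rd

/-!
# The rounded label
-/

set_option autoImplicit false

namespace Pool.F4L

open Finset Real MvPolynomial
open Pool.Agent.H49.Ent Pool.Agent.H32.Dense Pool.STK Pool.BFL Pool.MIC Pool.MIC30
open Pool.TIE (dg CH_box SubL dg_shift' cs_le)
open Pool.KAL (coefSum coefSum_nonneg expBox mem_expBox abs_eval_le_coefSum coefSum_eq_box)

variable {Ω : Type} [Fintype Ω]

/-- Data processing. -/
theorem mi_fun {p : Ω → ℝ} (hp : ∀ ω, 0 ≤ p ω) {S S' T U : Type} (A : Ω → S) (A' : Ω → S')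
    (hA : Det p A A') (B : Ω → T) (W : Ω → U) :
    CH p A' W - CH p A' (fun ω => (B ω, W ω)) ≤ CH p A W - CH p A (fun ω => (B ω, W ω)) := by
  have e1 := mi_sw hp A' B W
  have e2 := mi_sw hp A B W
  have h1 : CH p B (fun ω => (A ω, W ω)) ≤ CH p B (fun ω => (A' ω, W ω)) :=
    CH_mono_cond hp fun ω ω' a a' e =>
      Prod.ext (hA ω ω' a a' (congrArg (fun x => x.1) e)) (congrArg (fun x => x.2) e)
  linarith

variable {β α : Type} {m : ℕ} {q : Ω → ℝ} {b : Ω → β} {al : Ω → α} {V : Ω → Fin m → ℤ}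
  {nu : Ω → ℝ} {G : Ω → Pl m} {X h K : ℕ} {θ : ℝ}

theorem NFb.mono {υ : Type} {V : Ω → υ} {h H : ℕ} {c₀ κ κ' ρ ρ' : ℝ}
    (N : NFb q b V nu h c₀ κ ρ) (hH : H ≤ h) (hκ : κ * h ≤ κ' * H) (hρ : ρ ≤ ρ') :
    NFb q b V nu H c₀ κ' ρ' := by
  intro Ω' _ q' f hS r r' h1 h2 h3
  refine N Ω' q' f ⟨hS.isLaw, fun ω => ?_⟩ r r' h1 (h2.trans hH) (hκ.trans h3)
  exact (mul_le_mul_of_nonneg_right hρ (law_nonneg hS.isLaw.nonneg f ω)).trans (hS.dens ω)

theorem log_pow_le {a : ℝ} (ha : 1 ≤ a) {θ : ℝ} (hθ : 0 ≤ θ) (H : ℕ) :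
    Real.log (a * (2 ^ H * (2 : ℝ) ^ θ)) ≤ Real.log a + (H + θ) := by
  have hl2' : Real.log 2 ≤ 1 := by linarith [Real.log_two_lt_d9]
  have hl2 : 0 < Real.log 2 := Real.log_pos (by norm_num)
  rw [Real.log_mul (by positivity) (by positivity), Real.log_mul (by positivity) (by positivity),
    Real.log_pow, Real.log_rpow (by norm_num)]
  have h1 : (H : ℝ) * Real.log 2 ≤ H := mul_le_of_le_one_right (by positivity) hl2'
  have h2 : θ * Real.log 2 ≤ θ := mul_le_of_le_one_right hθ hl2'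
  linarith

/-- The rounded label is a few bits given the box. -/
theorem rd_few (D : LabD q b al V nu G X h K θ) (hθ : 0 ≤ θ)
    (hfew : CH q G (fun ω => (b ω, al ω)) ≤ θ)
    (honce : CH q al b ≤ CH q al (fun ω => ((V ω, dg h (nu ω)), b ω)) + θ) {H : ℕ} {δ : ℝ}
    (hP : Pb (glue q q (fun ω => (b ω, (V ω, dg h (nu ω)))) (fun ω => (b ω, (V ω, dg h (nu ω)))))
      (fun w => Lg H (G w.1 - G w.2)) ≤ δ) :
    CH q (fun ω => rd K H (G ω)) b ≤ 2 * θ + (Real.log 2 + (bx m K).card *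
      (Real.log 9 + δ * (Real.log 17 + (H + θ)))) := by
  classical
  have hq := D.isLaw
  have h0 := hq.nonneg
  have hmi := D.mi hfew honce
  obtain ⟨g, hg⟩ : ∃ g : Ω → β × ((Fin m → ℤ) × ℤ), g = fun ω => (b ω, (V ω, dg h (nu ω))) :=
    ⟨_, rfl⟩
  rw [← hg] at hP hmi
  have hZ : ∀ z, law q g z = law q g z := fun _ => rfl
  have hq₂ : IsLaw (glue q q g g) := isLaw_gl hq g
  have h20 := hq₂.nonneg
  have hpos : ∀ w, 0 < glue q q g g w → 0 < q w.1 ∧ 0 < q w.2 ∧ g w.1 = g w.2 :=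
    fun w hw => (glue_pos_iff h0 h0 w).1 hw
  have m1 : Marg (glue q q g g) q (fun w => w.1) := marg_fst h0 hZ
  have hδ : 0 ≤ δ := (Pb_nonneg h20 _).trans hP
  obtain ⟨R, hR⟩ : ∃ R : Ω → Pl m, R = fun ω => rd K H (G ω) := ⟨_, rfl⟩
  rw [← hR]
  -- mutual information
  have s1 : CH q R b - CH q R g ≤ 2 * θ := by
    have e1 := mi_fun h0 G R (fun ω ω' _ _ e => by rw [hR]; exact congrArg (rd K H) e)
      (fun ω => (V ω, dg h (nu ω))) b
    have e2 := CH_swc h0 R (fun ω => (V ω, dg h (nu ω))) b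
    have e3 := CH_swc h0 G (fun ω => (V ω, dg h (nu ω))) b
    rw [e2, e3, ← hg] at e1
    linarith
  obtain ⟨x, hx⟩ : ∃ x : Ω × Ω → bx m K → ℤ, x = fun w => rdv K H (G w.1) := ⟨_, rfl⟩
  obtain ⟨y, hy⟩ : ∃ y : Ω × Ω → bx m K → ℤ, y = fun w => rdv K H (G w.2) := ⟨_, rfl⟩
  have s2 : CH (glue q q g g) (fun w => R w.1) (fun w => b w.1) = CH q R b := m1.CH R b
  have s3 : CH q R g ≤ CH (glue q q g g) (fun w => R w.1) (fun w => (y w, b w.1)) := by
    rw [← CH_glue_fst h0 h0 hZ R (Y := g) (fun ω : Ω => ω) (fun _ _ _ _ h => h)]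
    refine CH_mono_cond h20 fun w w' a a' e => ?_
    have e1 : w.2 = w'.2 := congrArg (fun x => x.2) e
    have e2 : g w.1 = g w'.1 := congrArg (fun x => x.1) e
    rw [hg] at e2
    have e3 : b w.1 = b w'.1 := congrArg (fun x => x.1) e2
    show (y w, b w.1) = (y w', b w'.1)
    rw [e3, hy]
    show (rdv K H (G w.2), b w'.1) = (rdv K H (G w'.2), b w'.1)
    rw [e1]
  have s4 : CH (glue q q g g) (fun w => R w.1) (fun w => (y w, b w.1)) ≤
      CH (glue q q g g) x (fun w => (y w, b w.1)) := by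
    refine CH_mono_left h20 fun w w' _ _ e => ?_
    have e1 : x w = x w' := congrArg (fun x => x.1) e
    rw [hx] at e1
    rw [hR]
    exact rd_of_rdv e1
  obtain ⟨B, hB⟩ : ∃ B : ℝ, B = (2 : ℝ) ^ θ := ⟨_, rfl⟩
  have hB1 : 1 ≤ B := by rw [hB]; exact Real.one_le_rpow (by norm_num) hθ
  have hH1 : (1 : ℝ) ≤ 2 ^ H := one_le_pow₀ (by norm_num)
  have hHB : 1 ≤ 2 ^ H * B := one_le_mul_of_one_le_of_one_le hH1 hB1
  have s5 := CH_near hq₂ x y (fun w => (y w, b w.1)) (fun w w' _ _ e => congrArg (fun x => x.1) e)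
    (fun w => ¬ Lg H (G w.1 - G w.2)) (δ := δ) (S := 2 * (2 ^ H * B) + 2) (by positivity)
    (by simpa using hP)
    (fun w hw hE a => by
      rw [hx, hy]
      exact rdv_near hE a)
    (fun w hw a => by
      rw [hx, hy]
      refine rdv_size (B := B) ?_ ?_ a
      · intro a'
        rw [hB]
        exact D.cf _ (hpos w hw).1 a'
      · intro a'
        rw [hB]
        exact D.cf _ (hpos w hw).2.1 a')
  have s6 : Real.log (4 * (2 * (2 ^ H * B) + 2) + 1) ≤ Real.log 17 + (H + θ) := by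
    refine le_trans (Real.log_le_log (by positivity) ?_) (log_pow_le (by norm_num) hθ H)
    rw [← hB]
    linarith
  have s7 : δ * Real.log (4 * (2 * (2 ^ H * B) + 2) + 1) ≤ δ * (Real.log 17 + (H + θ)) :=
    mul_le_mul_of_nonneg_left s6 hδ
  have s8 : (Fintype.card (bx m K) : ℝ) = (bx m K).card := by rw [Fintype.card_coe]
  rw [s8] at s5
  have s9 : ((bx m K).card : ℝ) * (Real.log 9 + δ * Real.log (4 * (2 * (2 ^ H * B) + 2) + 1)) ≤
      (bx m K).card * (Real.log 9 + δ * (Real.log 17 + (H + θ))) :=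
    mul_le_mul_of_nonneg_left (by linarith) (by positivity)
  linarith

/-- The rounded label is a label. -/
theorem LabD.round (D : LabD q b al V nu G X h K θ) (hθ : 0 ≤ θ) {H : ℕ} (hH : H ≤ h) :
    LabD q b al V nu (fun ω => rd K H (G ω)) X H K
      (θ + 1 + Real.log (4 * (expBox (Fin m) K).card + 5)) := by
  classical
  have hq := D.isLaw
  have h0 := hq.nonneg
  have hl : 0 ≤ Real.log (4 * (expBox (Fin m) K).card + 5) :=
    Real.log_nonneg (by
      have : (0 : ℝ) ≤ (expBox (Fin m) K).card := by positivity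
      linarith)
  obtain ⟨C, hC⟩ : ∃ C : ℝ, C = (expBox (Fin m) K).card := ⟨_, rfl⟩
  have hC0 : 0 ≤ C := by rw [hC]; positivity
  rw [← hC] at hl ⊢
  have pH : (0 : ℝ) < 2 ^ H := by positivity
  refine ⟨hq, hH.trans D.h_le, D.V_lt, fun ω _ => rd_deg K H (G ω), ?_, ?_⟩
  · intro ω hω a
    have h1 : |coeff a (rd K H (G ω))| ≤ (2 : ℝ) ^ θ + 1 := by
      rcases eq_or_ne a 0 with rfl | ha
      · rw [coeff_rd_zero, abs_zero]
        positivity
      · have h2 := rd_near (H := H) (D.deg ω hω) ha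
        have h3 := D.cf ω hω a
        have h4 : (1 : ℝ) / 2 ^ H ≤ 1 := by
          rw [div_le_one pH]
          exact one_le_pow₀ (by norm_num)
        have h5 : coeff a (rd K H (G ω)) =
            (coeff a (rd K H (G ω)) - coeff a (G ω)) + coeff a (G ω) := by ring
        rw [h5]
        refine (abs_add_le _ _).trans ?_
        linarith
    refine h1.trans ?_
    have h6 : (2 : ℝ) ^ θ + 1 ≤ (2 : ℝ) ^ (θ + 1) := by
      rw [Real.rpow_add (by norm_num), Real.rpow_one]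
      have := Real.one_le_rpow (by norm_num : (1 : ℝ) ≤ 2) hθ
      linarith
    refine h6.trans (Real.rpow_le_rpow_of_exponent_le (by norm_num) ?_)
    linarith
  · -- fullness
    obtain ⟨R, hR⟩ : ∃ R : Ω → ℤ × (Pl m × (β × α)),
        R = fun ω => (dg h (nu ω - pe X V G ω), (G ω, (b ω, al ω))) := ⟨_, rfl⟩
    have hfull := D.full
    rw [← hR] at hfull
    obtain ⟨n, hn⟩ : ∃ n : Ω → ℝ, n = fun ω => nu ω - pe X V (fun ω => rd K H (G ω)) ω := ⟨_, rfl⟩
    have hdiff : ∀ ω, 0 < q ω → |n ω - (nu ω - pe X V G ω) - coeff 0 (G ω)| ≤ C / 2 ^ H := by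
      intro ω hω
      obtain ⟨P, hP⟩ : ∃ P : Pl m, P = G ω - MvPolynomial.C (coeff 0 (G ω)) - rd K H (G ω) :=
        ⟨_, rfl⟩
      have e1 : n ω - (nu ω - pe X V G ω) - coeff 0 (G ω) =
          eval (fun i => ((V ω i : ℤ) : ℝ) / 2 ^ X) P := by
        rw [hn, hP, eval_sub, eval_sub, eval_C]
        unfold pe
        ring
      have e2 : P.totalDegree ≤ K := by
        rw [hP]
        refine (totalDegree_sub _ _).trans (max_le ?_ (rd_deg K H (G ω)))
        exact (totalDegree_sub_C_le _ _).trans (D.deg ω hω)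
      have e3 : ∀ a, |coeff a P| ≤ 1 / 2 ^ H := by
        intro a
        rcases eq_or_ne a 0 with rfl | ha
        · rw [hP, coeff_sub, coeff_sub, coeff_C, if_pos rfl, coeff_rd_zero, sub_self, sub_zero,
            abs_zero]
          positivity
        · rw [hP, coeff_sub, coeff_sub, coeff_C, if_neg (Ne.symm ha), sub_zero, abs_sub_comm]
          exact rd_near (D.deg ω hω) ha
      rw [e1]
      refine (abs_eval_le_coefSum P _ ?_).trans ?_
      · intro i
        have h1 : (0 : ℝ) ≤ (V ω i : ℤ) := by exact_mod_cast (D.V_lt ω i).1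
        have h2 : ((V ω i : ℤ) : ℝ) ≤ 2 ^ X := by exact_mod_cast (D.V_lt ω i).2.le
        rw [abs_of_nonneg (by positivity), div_le_one (by positivity)]
        exact h2
      · refine (cs_le e2 e3).trans (le_of_eq ?_)
        rw [hC]
        ring
    have s1 : CH q V (fun ω => (dg H (n ω), R ω)) ≤
        CH q V (fun ω => (dg H (n ω), (rd K H (G ω), (b ω, al ω)))) := by
      refine CH_mono_cond h0 fun ω ω' _ _ e => ?_
      have e1 : dg H (n ω) = dg H (n ω') := congrArg (fun x => x.1) e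
      have e2 : R ω = R ω' := congrArg (fun x => x.2) e
      rw [hR] at e2
      have e3 : G ω = G ω' := congrArg (fun x => x.2.1) e2
      have e4 : (b ω, al ω) = (b ω', al ω') := congrArg (fun x => x.2.2) e2
      show (dg H (n ω), (rd K H (G ω), (b ω, al ω))) = (dg H (n ω'), (rd K H (G ω'), (b ω', al ω')))
      rw [e1, e3, e4]
    have s2 := mi_sw h0 V (fun ω => dg H (n ω)) R
    have s3 := CH_nonneg h0 (fun ω => dg H (n ω)) (fun ω => (V ω, R ω))
    have s4 : CH q (fun ω => dg H (n ω)) R ≤ Real.log (4 * C + 5) := by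
      refine (CH_le_int h0 hq.sum_one _ _ (fun _ => 2 * C + 2) ?_).trans ?_
      · intro ω ω' a a' e
        rw [hR] at e
        have e1 : dg h (nu ω - pe X V G ω) = dg h (nu ω' - pe X V G ω') :=
          congrArg (fun x => x.1) e
        have e2 : G ω = G ω' := congrArg (fun x => x.2.1) e
        have d1 := hdiff ω a
        have d2 := hdiff ω' a'
        have d3 := dg_near e1
        rw [e2] at d1
        have d4 : (1 : ℝ) / 2 ^ h ≤ 1 / 2 ^ H :=
          one_div_le_one_div_of_le pH (pow_le_pow_right₀ (by norm_num) hH)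
        have d5 : |n ω - n ω'| ≤ (2 * C + 1) / 2 ^ H := by
          have e4 : (2 * C + 1) / 2 ^ H = C / 2 ^ H + C / 2 ^ H + 1 / 2 ^ H := by ring
          rw [e4]
          rw [abs_le] at d1 d2 d3 ⊢
          constructor <;> linarith [d1.1, d1.2, d2.1, d2.2, d3.1, d3.2]
        have d6 : |2 ^ H * n ω - 2 ^ H * n ω'| ≤ 2 * C + 1 := by
          rw [← mul_sub, abs_mul, abs_of_pos pH, mul_comm]
          rw [le_div_iff₀ pH] at d5
          exact d5
        show |((dg H (n ω) - dg H (n ω') : ℤ) : ℝ)| ≤ 2 * C + 2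
        unfold Pool.TIE.dg
        have a1 := Int.floor_le ((2 : ℝ) ^ H * n ω)
        have a2 := Int.lt_floor_add_one ((2 : ℝ) ^ H * n ω)
        have a3 := Int.floor_le ((2 : ℝ) ^ H * n ω')
        have a4 := Int.lt_floor_add_one ((2 : ℝ) ^ H * n ω')
        push_cast
        rw [abs_le] at d6 ⊢
        constructor <;> linarith [d6.1, d6.2]
      · rw [Ex_const hq.sum_one]
        refine le_of_eq ?_
        congr 1
        ring
    have s5 : (fun ω => (dg H (nu ω - pe X V (fun ω => rd K H (G ω)) ω),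
        (rd K H (G ω), (b ω, al ω)))) = fun ω => (dg H (n ω), (rd K H (G ω), (b ω, al ω))) := by
      rw [hn]
    rw [s5]
    linarith

/-- **The rounded label**: few bits given the box. -/
theorem round (m K : ℕ) {c₀ ε : ℝ} (hc₀ : 0 < c₀) (hε : 0 < ε) (hε1 : ε ≤ 1 / 2) :
    ∃ (h₁ : ℕ) (κ ρ ι : ℝ), 0 < κ ∧ 0 < ρ ∧ 0 < ι ∧ ∀ (Ω β α : Type) [Fintype Ω] (q : Ω → ℝ)
      (b : Ω → β) (al : Ω → α) (V : Ω → Fin m → ℤ) (nu : Ω → ℝ) (G : Ω → Pl m) (X h : ℕ),
      h₁ ≤ h → LabD q b al V nu G X h K (ι * h) →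
      CH q G (fun ω => (b ω, al ω)) ≤ ι * h →
      CH q al b ≤ CH q al (fun ω => ((V ω, dg h (nu ω)), b ω)) + ι * h →
      NFb q b V nu h c₀ κ ρ → ∀ H : ℕ, (h : ℝ) ≤ 4 * H → (H : ℝ) ≤ (1 - ε) * h →
        LabD q b al V nu (fun ω => rd K H (G ω)) X H K (ε * H) ∧
          CH q (fun ω => rd K H (G ω)) b ≤ ε * H := by
  classical
  obtain ⟨D, hD⟩ : ∃ D : ℝ, D = (bx m K).card := ⟨_, rfl⟩
  have hD0 : 0 ≤ D := by rw [hD]; positivity
  obtain ⟨δ, hδ⟩ : ∃ δ : ℝ, δ = min ε (ε / (32 * (D + 1))) := ⟨_, rfl⟩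
  have hδ0 : 0 < δ := by rw [hδ]; positivity
  have hδε : δ ≤ ε := by rw [hδ]; exact min_le_left _ _
  have hδD : D * δ ≤ ε / 32 := by
    have h1 : δ ≤ ε / (32 * (D + 1)) := by rw [hδ]; exact min_le_right _ _
    calc D * δ ≤ (D + 1) * (ε / (32 * (D + 1))) := by
          refine mul_le_mul (by linarith) h1 hδ0.le (by linarith)
      _ = ε / 32 := by field_simp
  obtain ⟨h₁, κ, ρ, ι, hκ, hρ, hι, hk⟩ := few m K hc₀ hδ0
  obtain ⟨M1, hM1⟩ : ∃ M1 : ℝ, M1 = 1 + Real.log (4 * (expBox (Fin m) K).card + 5) := ⟨_, rfl⟩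
  obtain ⟨M2, hM2⟩ : ∃ M2 : ℝ, M2 = Real.log 2 + D * Real.log 9 + D * (δ * Real.log 17) :=
    ⟨_, rfl⟩
  have hM10 : 0 ≤ M1 := by
    rw [hM1]
    have : 0 ≤ Real.log (4 * (expBox (Fin m) K).card + 5) := Real.log_nonneg (by
      have : (0 : ℝ) ≤ (expBox (Fin m) K).card := by positivity
      linarith)
    linarith
  have hM20 : 0 ≤ M2 := by
    rw [hM2]
    have a1 := Real.log_nonneg (by norm_num : (1 : ℝ) ≤ 2)
    have a2 := Real.log_nonneg (by norm_num : (1 : ℝ) ≤ 9)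
    have a3 := Real.log_nonneg (by norm_num : (1 : ℝ) ≤ 17)
    positivity
  obtain ⟨ι', hι'⟩ : ∃ ι' : ℝ, ι' = min ι (min (ε / 32) 1) := ⟨_, rfl⟩
  have hι'0 : 0 < ι' := by rw [hι']; positivity
  have hι'1 : ι' ≤ ι := by rw [hι']; exact min_le_left _ _
  have hι'2 : ι' ≤ ε / 32 := by rw [hι']; exact (min_le_right _ _).trans (min_le_left _ _)
  have hι'3 : ι' ≤ 1 := by rw [hι']; exact (min_le_right _ _).trans (min_le_right _ _)
  refine ⟨max h₁ ⌈16 * (M1 + M2) / ε⌉₊, κ, ρ, ι', hκ, hρ, hι'0, ?_⟩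
  intro Ω β α _ q b al V nu G X h hh L hfew honce hnf H hH4 hH
  have hhr : (0 : ℝ) ≤ h := Nat.cast_nonneg _
  have hHr : (0 : ℝ) ≤ H := Nat.cast_nonneg _
  have hh2 : 16 * (M1 + M2) ≤ ε * h := by
    have h1 := Nat.le_ceil (16 * (M1 + M2) / ε)
    have h2 : ((⌈16 * (M1 + M2) / ε⌉₊ : ℕ) : ℝ) ≤ h := by
      exact_mod_cast (le_max_right _ _).trans hh
    have h3 := h1.trans h2
    rw [div_le_iff₀ hε] at h3
    linarith
  have hHh : H ≤ h := by
    have : (H : ℝ) ≤ h := by nlinarith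
    exact_mod_cast this
  have hHh' : (H : ℝ) ≤ h := by exact_mod_cast hHh
  have hθ0 : 0 ≤ ι' * h := by positivity
  have hle : ι' * h ≤ ι * h := mul_le_mul_of_nonneg_right hι'1 hhr
  have L' : LabD q b al V nu G X h K (ι * h) :=
    ⟨L.isLaw, L.h_le, L.V_lt, L.deg, fun ω hω a => (L.cf ω hω a).trans
      (Real.rpow_le_rpow_of_exponent_le (by norm_num) hle), by linarith [L.full]⟩
  have hP := hk Ω β α q b al V nu G X h ((le_max_left _ _).trans hh) L' (hfew.trans hle)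
    (by linarith) hnf H (by nlinarith)
  have hr := rd_few L hθ0 hfew honce hP
  have hL := L.round hθ0 hHh
  have hεH : ε * h ≤ 4 * (ε * H) := by nlinarith
  have t1 : ι' * h ≤ ε * h / 32 := by
    calc ι' * h ≤ ε / 32 * h := mul_le_mul_of_nonneg_right hι'2 hhr
      _ = ε * h / 32 := by ring
  refine ⟨⟨hL.isLaw, hL.h_le, hL.V_lt, hL.deg, fun ω hω a => (hL.cf ω hω a).trans
    (Real.rpow_le_rpow_of_exponent_le (by norm_num) ?_), ?_⟩, hr.trans ?_⟩
  · linarith
  · linarith [hL.full]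
  · rw [← hD]
    have t2 : D * δ * (H + ι' * h) ≤ ε / 32 * (H + ι' * h) :=
      mul_le_mul_of_nonneg_right hδD (by positivity)
    have t3 : ι' * h ≤ h := mul_le_of_le_one_left hhr hι'3
    have t4 : ε / 32 * (H + ι' * h) ≤ ε / 32 * (h + h) :=
      mul_le_mul_of_nonneg_left (by linarith) (by positivity)
    have t5 : D * (Real.log 9 + δ * (Real.log 17 + (H + ι' * h))) =
        D * Real.log 9 + D * (δ * Real.log 17) + D * δ * (H + ι' * h) := by ring
    rw [t5]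
    linarith

end Pool.F4L
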